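import Pool.Agent.H15.LE.Base
import Pool.Agent.H95.LE.WtDef

/-!
PROJECT LE (MP_0d9ad5_pr), block G (inputs K3, K4, K5 of the lower half, notes 2738, 2744). Definitions.

`T f r w = r^-d sum_{a, b in {0..r-1}^d} f (w + a - b)` is the test of `f` with the tent function at `w`; its Fourier
transform is the product of the (one-dimensional) Fejer kernels `h1 r (k i) >= 0`.
-/

namespace H88GK

open H5DF H95LBD H95LE H15LE MeasureTheory

variable {d : ℕ}

/-- The cube `{0, ..., r-1}^d`. -/
noncomputable def Bx (d r : ℕ) : Finset (V d) := Fintype.piFinset fun _ => Finset.Ico (0 : ℤ) r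

/-- The cube with centre `w` and half side `s`. -/
noncomputable def cu (w : V d) (s : ℕ) : Finset (V d) := Fintype.piFinset fun i => Finset.Icc (w i - s) (w i + s)

/-- The tent test. -/
noncomputable def T (f : V d → ℝ) (r : ℕ) (w : V d) : ℝ :=
  (∑ a ∈ Bx d r, ∑ b ∈ Bx d r, f (w + a - b)) / (r : ℝ) ^ d

/-- The one-dimensional Fejer kernel. -/
noncomputable def h1 (r : ℕ) (a : ℝ) : ℝ :=
  ‖∑ j ∈ Finset.range r, Complex.exp (((j * a : ℝ) : ℂ) * Complex.I)‖ ^ 2 / r

/-- Transform of one step of the lazy walk. -/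
noncomputable def ee (k : Fin d → ℝ) : ℝ := ∏ i, (1 + Real.cos (k i)) / 2

end H88GK
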