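import Pool.Agent.H88.GK.H1
import Pool.Agent.H15.LE.Inv
import Pool.Agent.H15.LE.Intg

/-!
PROJECT LE, block G, job GK-IntF. Integrals of the product of Fejer kernels against `(1 - D^)^(-m)`.

PROOF. `amg`: AM-GM with weights `1/d`: `uu k = (1/d) sum_i (1 - cos k_i) >= prod_i (1 - cos k_i)^(1/d)`
(`H15LE.Intg_amgm`), then the power `-m`. If some
`1 - cos k_i = 0` and `m > 0` the right-hand side is `top` (no factor is `0`, as `1 - cos <= 2 < top`). `m = 0` is trivial.
`int_fej`: `amg`, `Finset.prod_mul_distrib`, the integral of a product of functions of the single coordinates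
against the product measure is the product of the integrals, `int_h1_rpow` with `s = m/d <= 1/4`, and
`(8 r^(2m/d))^d = 8^d r^(2m)`.
-/

namespace H88GK

open H5DF H95LBD H95LE H15LE MeasureTheory

variable {d : ℕ}

theorem lint_prod (f : Fin d → ℝ → ENNReal) (hf : ∀ i, Measurable (f i)) :
    ∫⁻ k, ∏ i, f i (k i) ∂(mu d) = ∏ i, ∫⁻ a, f i a ∂nu := by
  have hX : ProbabilityTheory.iIndepFun (fun (i : Fin d) (k : Fin d → ℝ) => f i (k i)) (mu d) :=
    ProbabilityTheory.iIndepFun_pi (X := f) (fun i => (hf i).aemeasurable)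
  rw [ProbabilityTheory.lintegral_prod_eq_prod_lintegral_of_indepFun Finset.univ
    (fun (i : Fin d) (k : Fin d → ℝ) => f i (k i)) hX
    (fun i => (hf i).comp (measurable_pi_apply i))]
  exact Finset.prod_congr rfl fun i _ =>
    (measurePreserving_eval (fun _ : Fin d => nu) i).lintegral_comp (hf i)

theorem amg (hd : 0 < d) (m : ℕ) (k : Fin d → ℝ) :
    (ENNReal.ofReal (uu k))⁻¹ ^ m ≤
      ∏ i, (ENNReal.ofReal (1 - Real.cos (k i))) ^ (-((m : ℝ) / d)) := by
  by_cases h : ∀ i, 0 < 1 - Real.cos (k i)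
  · exact Intg_amgm hd k h m
  · push Not at h
    obtain ⟨i, hi⟩ := h
    rcases Nat.eq_zero_or_pos m with rfl | hm
    · simp
    · have hd' : (0 : ℝ) < d := by exact_mod_cast hd
      have hm' : (0 : ℝ) < m := by exact_mod_cast hm
      have hs : -((m : ℝ) / d) < 0 := by
        have : 0 < (m : ℝ) / d := by positivity
        linarith
      have h1 : (ENNReal.ofReal (1 - Real.cos (k i))) ^ (-((m : ℝ) / d)) = ⊤ := by
        rw [ENNReal.ofReal_eq_zero.2 hi, ENNReal.zero_rpow_of_neg hs]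
      have h2 : ∏ j, (ENNReal.ofReal (1 - Real.cos (k j))) ^ (-((m : ℝ) / d)) = ⊤ := by
        rw [← Finset.mul_prod_erase Finset.univ _ (Finset.mem_univ i), h1, ENNReal.top_mul]
        rw [Finset.prod_ne_zero_iff]
        intro j _ h0
        rw [ENNReal.rpow_eq_zero_iff] at h0
        rcases h0 with h0 | h0
        · linarith [h0.2]
        · exact ENNReal.ofReal_ne_top h0.1
      rw [h2]
      exact le_top

theorem int_fej (m d r : ℕ) (hm : 4 * m ≤ d) (hd : 0 < d) (hr : 1 ≤ r) :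
    ∫⁻ k, (ENNReal.ofReal (uu k))⁻¹ ^ m * ∏ i, ENNReal.ofReal (h1 r (k i)) ∂(mu d) ≤
      8 ^ d * (r : ENNReal) ^ (2 * m) := by
  have hd' : (0 : ℝ) < d := by exact_mod_cast hd
  have hm' : (4 * m : ℝ) ≤ d := by exact_mod_cast hm
  have hh : Measurable (h1 r) := (h1_cont r).measurable
  have hmeas : Measurable fun a : ℝ =>
      ENNReal.ofReal (h1 r a) * (ENNReal.ofReal (1 - Real.cos a)) ^ (-((m : ℝ) / d)) := by
    refine hh.ennreal_ofReal.mul ?_
    fun_prop
  calc ∫⁻ k, (ENNReal.ofReal (uu k))⁻¹ ^ m * ∏ i, ENNReal.ofReal (h1 r (k i)) ∂(mu d)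
      ≤ ∫⁻ k, ∏ i : Fin d, (ENNReal.ofReal (h1 r (k i)) *
          (ENNReal.ofReal (1 - Real.cos (k i))) ^ (-((m : ℝ) / d))) ∂(mu d) := by
        refine lintegral_mono fun k => ?_
        rw [Finset.prod_mul_distrib, mul_comm]
        exact mul_le_mul_right (amg hd m k) _
    _ = ∏ _i : Fin d, ∫⁻ a, ENNReal.ofReal (h1 r a) *
          (ENNReal.ofReal (1 - Real.cos a)) ^ (-((m : ℝ) / d)) ∂nu :=
        lint_prod (fun _ a => ENNReal.ofReal (h1 r a) *
          (ENNReal.ofReal (1 - Real.cos a)) ^ (-((m : ℝ) / d))) (fun _ => hmeas)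
    _ ≤ ∏ _i : Fin d, (8 * (r : ENNReal) ^ (2 * ((m : ℝ) / d))) := by
        refine Finset.prod_le_prod' fun _ _ => ?_
        exact int_h1_rpow r hr ((m : ℝ) / d) (by positivity) (by
          rw [div_le_iff₀ hd']
          linarith)
    _ = 8 ^ d * (r : ENNReal) ^ (2 * m) := by
        rw [Finset.prod_const, Finset.card_univ, Fintype.card_fin, mul_pow]
        congr 1
        rw [← ENNReal.rpow_natCast, ← ENNReal.rpow_mul, ← ENNReal.rpow_natCast]
        congr 1
        push_cast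
        field_simp

theorem int_fej0 (d r : ℕ) : ∫⁻ k, ∏ i, ENNReal.ofReal (h1 r (k i)) ∂(mu d) ≤ 1 := by
  have hh : Measurable (h1 r) := (h1_cont r).measurable
  rw [lint_prod (fun _ a => ENNReal.ofReal (h1 r a)) (fun _ => hh.ennreal_ofReal)]
  exact Finset.prod_le_one' fun _ _ => int_h1 r

end H88GK
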