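import Pool.Agent.H88.GK.Def
import Pool.Agent.H15.LE.Inv

/-!
PROJECT LE, block G, job GK-Tst (helper60). The tent test `T f r w = r^-d sum_{a,b in Bx d r} f (w+a-b)`.

PROOF. `T_le`: for fixed `b` the points `w+a-b`, `a in Bx`, are different points of `cu w r`; there are `r^d` many `b`.
`le_T`: with `r = 3s`: for every `b` with all `b_i in [s, 2s)` (`s^d` many) and every `z in cu w s` the point `a = z-w+b` lies in
`Bx d (3s)`; so `sum_{a,b} f >= s^d sum_{cu w s} f`. `T_ge`: all `w+a-b` lie in `cu w r`; there are `r^(2d)` pairs.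
`T_ft`: `inversion`: `f x = int ft f k * ch k (-x) dmu`; so `T f r w = int ft f k * ch k (-w) * |S k|^2 / r^d dmu`,
`S k = sum_{a in Bx} ch k a` (`ch k (-(w+a-b)) = ch k (-w) * ch k (-a) * ch k b`, `ch k (-a) = conj (ch k a)`), and
`|S k|^2 / r^d = prod_i h1 r (k i)` (`Finset.prod_univ_sum`; `Ico 0 r` in `Z` against `range r`). The integrals of the single
terms exist (norm of `ft f k * ch k (-x)` is bounded by `sum |f|`, `mu` is a probability measure, `continuous_ft`); then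
`ofReal |Re int F| <= int^- |F|`.
-/

namespace H88GK

open H5DF H95LBD H95LE H15LE MeasureTheory

variable {d : ℕ}

lemma mem_Bx {r : ℕ} {a : V d} : a ∈ Bx d r ↔ ∀ i, 0 ≤ a i ∧ a i < r := by
  unfold Bx
  simp only [Fintype.mem_piFinset, Finset.mem_Ico]

lemma mem_cu {w : V d} {s : ℕ} {z : V d} : z ∈ cu w s ↔ ∀ i, w i - s ≤ z i ∧ z i ≤ w i + s := by
  unfold cu
  simp only [Fintype.mem_piFinset, Finset.mem_Icc]

lemma card_Bx (r : ℕ) : (Bx d r).card = r ^ d := by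
  unfold Bx
  rw [Fintype.card_piFinset]
  simp

lemma T_sub (f g : V d → ℝ) (r : ℕ) (w : V d) : T (fun x => f x - g x) r w = T f r w - T g r w := by
  unfold T
  simp only [Finset.sum_sub_distrib]
  ring

lemma T_smul (c : ℝ) (f : V d → ℝ) (r : ℕ) (w : V d) : T (fun x => c * f x) r w = c * T f r w := by
  unfold T
  simp only [← Finset.mul_sum]
  ring

lemma T_sum {ι : Type*} (s : Finset ι) (f : ι → V d → ℝ) (r : ℕ) (w : V d) :
    T (fun x => ∑ n ∈ s, f n x) r w = ∑ n ∈ s, T (f n) r w := by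
  unfold T
  rw [← Finset.sum_div]
  congr 1
  calc ∑ a ∈ Bx d r, ∑ b ∈ Bx d r, ∑ n ∈ s, f n (w + a - b)
      = ∑ a ∈ Bx d r, ∑ n ∈ s, ∑ b ∈ Bx d r, f n (w + a - b) :=
        Finset.sum_congr rfl fun a _ => Finset.sum_comm
    _ = ∑ n ∈ s, ∑ a ∈ Bx d r, ∑ b ∈ Bx d r, f n (w + a - b) := Finset.sum_comm

lemma T_nonneg {f : V d → ℝ} (hf : ∀ x, 0 ≤ f x) (r : ℕ) (w : V d) : 0 ≤ T f r w := by
  unfold T
  exact div_nonneg (Finset.sum_nonneg fun a _ => Finset.sum_nonneg fun b _ => hf _) (by positivity)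

theorem T_le {f : V d → ℝ} (hf : ∀ x, 0 ≤ f x) (r : ℕ) (hr : 1 ≤ r) (w : V d) :
    T f r w ≤ ∑ z ∈ cu w r, f z := by
  have hr0 : (0 : ℝ) < (r : ℝ) ^ d := by
    have : (0 : ℝ) < r := by exact_mod_cast hr
    positivity
  unfold T
  rw [div_le_iff₀ hr0, Finset.sum_comm]
  have h1 : ∀ b ∈ Bx d r, ∑ a ∈ Bx d r, f (w + a - b) ≤ ∑ z ∈ cu w r, f z := by
    intro b hb
    rw [mem_Bx] at hb
    have hinj : Set.InjOn (fun a : V d => w + a - b) (Bx d r) := by
      intro a _ a' _ h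
      simpa using h
    rw [← Finset.sum_image (f := f) hinj]
    refine Finset.sum_le_sum_of_subset_of_nonneg ?_ fun z _ _ => hf z
    intro z hz
    rw [Finset.mem_image] at hz
    obtain ⟨a, ha, rfl⟩ := hz
    rw [mem_Bx] at ha
    rw [mem_cu]
    intro i
    have h1 := ha i
    have h2 := hb i
    simp only [Pi.sub_apply, Pi.add_apply]
    constructor <;> omega
  calc ∑ b ∈ Bx d r, ∑ a ∈ Bx d r, f (w + a - b) ≤ ∑ _b ∈ Bx d r, ∑ z ∈ cu w r, f z :=
        Finset.sum_le_sum h1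
    _ = (∑ z ∈ cu w r, f z) * (r : ℝ) ^ d := by
        rw [Finset.sum_const, card_Bx, nsmul_eq_mul, Nat.cast_pow, mul_comm]

theorem le_T {f : V d → ℝ} (hf : ∀ x, 0 ≤ f x) (s : ℕ) (hs : 1 ≤ s) (w : V d) :
    ∑ z ∈ cu w s, f z ≤ 3 ^ d * T f (3 * s) w := by
  have hs0 : (0 : ℝ) < s := by exact_mod_cast hs
  set Y : Finset (V d) := Fintype.piFinset fun _ => Finset.Ico (s : ℤ) (2 * s) with hY
  have hYc : (Y.card : ℝ) = (s : ℝ) ^ d := by
    rw [hY, Fintype.card_piFinset]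
    simp only [Int.card_Ico, Finset.prod_const, Finset.card_univ, Fintype.card_fin]
    have : ((2 : ℤ) * s - s).toNat = s := by omega
    rw [this]
    push_cast
    rfl
  have hYm : ∀ b, b ∈ Y ↔ ∀ i, (s : ℤ) ≤ b i ∧ b i < 2 * s := by
    intro b
    rw [hY]
    simp only [Fintype.mem_piFinset, Finset.mem_Ico]
  have hYB : Y ⊆ Bx d (3 * s) := by
    intro b hb
    rw [hYm] at hb
    rw [mem_Bx]
    intro i
    have := hb i
    push_cast
    constructor <;> omega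
  have h1 : ∀ b ∈ Y, ∑ z ∈ cu w s, f z ≤ ∑ a ∈ Bx d (3 * s), f (w + a - b) := by
    intro b hb
    rw [hYm] at hb
    have hinj : Set.InjOn (fun z : V d => z - w + b) (cu w s) := by
      intro a _ a' _ h
      simpa using h
    have h2 : ∑ z ∈ cu w s, f z = ∑ a ∈ (cu w s).image (fun z => z - w + b), f (w + a - b) := by
      rw [Finset.sum_image hinj]
      refine Finset.sum_congr rfl fun z _ => ?_
      congr 1
      abel
    rw [h2]
    refine Finset.sum_le_sum_of_subset_of_nonneg ?_ fun z _ _ => hf _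
    intro a ha
    rw [Finset.mem_image] at ha
    obtain ⟨z, hz, rfl⟩ := ha
    rw [mem_cu] at hz
    rw [mem_Bx]
    intro i
    have h3 := hz i
    have h4 := hb i
    simp only [Pi.sub_apply, Pi.add_apply]
    push_cast
    constructor <;> omega
  have h5 : (s : ℝ) ^ d * ∑ z ∈ cu w s, f z ≤
      ∑ a ∈ Bx d (3 * s), ∑ b ∈ Bx d (3 * s), f (w + a - b) := by
    rw [Finset.sum_comm]
    calc (s : ℝ) ^ d * ∑ z ∈ cu w s, f z = ∑ _b ∈ Y, ∑ z ∈ cu w s, f z := by
          rw [Finset.sum_const, nsmul_eq_mul, hYc]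
      _ ≤ ∑ b ∈ Y, ∑ a ∈ Bx d (3 * s), f (w + a - b) := Finset.sum_le_sum h1
      _ ≤ ∑ b ∈ Bx d (3 * s), ∑ a ∈ Bx d (3 * s), f (w + a - b) :=
          Finset.sum_le_sum_of_subset_of_nonneg hYB fun b _ _ => Finset.sum_nonneg fun a _ => hf _
  unfold T
  have h6 : (((3 * s : ℕ) : ℝ)) ^ d = 3 ^ d * (s : ℝ) ^ d := by
    push_cast; rw [mul_pow]
  rw [h6, mul_div_assoc', le_div_iff₀ (by positivity)]
  calc (∑ z ∈ cu w s, f z) * (3 ^ d * (s : ℝ) ^ d) = 3 ^ d * ((s : ℝ) ^ d * ∑ z ∈ cu w s, f z) := by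
        ring
    _ ≤ _ := mul_le_mul_of_nonneg_left h5 (by positivity)

theorem T_ge {f : V d → ℝ} (c : ℝ) (r : ℕ) (hr : 1 ≤ r) (w : V d) (h : ∀ z ∈ cu w r, c ≤ f z) :
    c * (r : ℝ) ^ d ≤ T f r w := by
  have hr0 : (0 : ℝ) < (r : ℝ) ^ d := by
    have : (0 : ℝ) < r := by exact_mod_cast hr
    positivity
  unfold T
  rw [le_div_iff₀ hr0]
  calc c * (r : ℝ) ^ d * (r : ℝ) ^ d = ∑ _a ∈ Bx d r, ∑ _b ∈ Bx d r, c := by
        rw [Finset.sum_const, Finset.sum_const, card_Bx, nsmul_eq_mul, nsmul_eq_mul, Nat.cast_pow]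
        ring
    _ ≤ ∑ a ∈ Bx d r, ∑ b ∈ Bx d r, f (w + a - b) := by
        refine Finset.sum_le_sum fun a ha => Finset.sum_le_sum fun b hb => h _ ?_
        rw [mem_Bx] at ha hb
        rw [mem_cu]
        intro i
        have h1 := ha i
        have h2 := hb i
        simp only [Pi.sub_apply, Pi.add_apply]
        constructor <;> omega

lemma ch_neg_conj (k : Fin d → ℝ) (x : V d) : ch k (-x) = (starRingEnd ℂ) (ch k x) := by
  unfold ch
  rw [map_prod]
  refine Finset.prod_congr rfl fun i _ => ?_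
  rw [← Complex.exp_conj]
  congr 1
  rw [map_mul, Complex.conj_I, Complex.conj_ofReal]
  simp only [Pi.neg_apply]
  push_cast
  ring

/-- The sum of the characters over the cube. -/
lemma sum_ch (r : ℕ) (k : Fin d → ℝ) :
    ∑ a ∈ Bx d r, ch k a =
      ∏ i, ∑ j ∈ Finset.range r, Complex.exp (((j * k i : ℝ) : ℂ) * Complex.I) := by
  unfold Bx ch
  rw [← Finset.prod_univ_sum (fun _ => Finset.Ico (0 : ℤ) r)
    (fun i z => Complex.exp (((k i * (z : ℝ) : ℝ) : ℂ) * Complex.I))]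
  refine Finset.prod_congr rfl fun i _ => ?_
  refine Finset.sum_nbij' (fun z => z.toNat) (fun m => (m : ℤ)) ?_ ?_ ?_ ?_ ?_
  · intro z hz
    rw [Finset.mem_Ico] at hz
    rw [Finset.mem_range]
    omega
  · intro m hm
    rw [Finset.mem_range] at hm
    rw [Finset.mem_Ico]
    omega
  · intro z hz
    rw [Finset.mem_Ico] at hz
    show ((z.toNat : ℕ) : ℤ) = z
    omega
  · intro m _
    show ((m : ℤ)).toNat = m
    omega
  · intro z hz
    rw [Finset.mem_Ico] at hz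
    have e : ((z.toNat : ℕ) : ℝ) = (z : ℝ) := by
      have : ((z.toNat : ℕ) : ℤ) = z := by omega
      exact_mod_cast congrArg (fun t : ℤ => (t : ℝ)) this
    rw [e, mul_comm (k i)]

lemma prod_h1 (r : ℕ) (k : Fin d → ℝ) :
    ∏ i, h1 r (k i) = ‖∑ a ∈ Bx d r, ch k a‖ ^ 2 / (r : ℝ) ^ d := by
  rw [sum_ch, norm_prod, ← Finset.prod_pow]
  unfold h1
  rw [Finset.prod_div_distrib, Finset.prod_const, Finset.card_univ, Fintype.card_fin]

lemma T_ft_eq {f : V d → ℝ} (hf : Summable f) (r : ℕ) (w : V d) :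
    (T f r w : ℂ) = ∫ k, ft f k * ch k (-w) * ((∏ i, h1 r (k i) : ℝ) : ℂ) ∂(mu d) := by
  have hint : ∀ x : V d, Integrable (fun k => ft f k * ch k (-x)) (mu d) := by
    intro x
    refine Integrable.mono' (integrable_const (∑' x, |f x|))
      ((continuous_ft hf).mul (continuous_ch (-x))).aestronglyMeasurable ?_
    refine Filter.Eventually.of_forall fun k => ?_
    rw [norm_mul, norm_ch, mul_one]
    exact norm_ft_le hf k
  have h1 : ∀ k : Fin d → ℝ, ft f k * ch k (-w) * ((∏ i, h1 r (k i) : ℝ) : ℂ) =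
      (∑ a ∈ Bx d r, ∑ b ∈ Bx d r, ft f k * ch k (-(w + a - b))) * ((r : ℂ) ^ d)⁻¹ := by
    intro k
    have h2 : ∑ a ∈ Bx d r, ∑ b ∈ Bx d r, ft f k * ch k (-(w + a - b)) =
        ft f k * ch k (-w) * ((∑ a ∈ Bx d r, ch k (-a)) * ∑ b ∈ Bx d r, ch k b) := by
      rw [Finset.sum_mul_sum, Finset.mul_sum]
      refine Finset.sum_congr rfl fun a _ => ?_
      rw [Finset.mul_sum]
      refine Finset.sum_congr rfl fun b _ => ?_
      have : -(w + a - b) = -w + (-a + b) := by abel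
      rw [this, ch_add, ch_add]
      ring
    have h3 : (∑ a ∈ Bx d r, ch k (-a)) = (starRingEnd ℂ) (∑ a ∈ Bx d r, ch k a) := by
      rw [map_sum]
      exact Finset.sum_congr rfl fun a _ => ch_neg_conj k a
    rw [h2, h3, prod_h1, mul_comm ((starRingEnd ℂ) _), Complex.mul_conj, Complex.normSq_eq_norm_sq]
    push_cast
    ring
  simp only [h1]
  rw [integral_mul_const, integral_finsetSum _ fun a _ => integrable_finsetSum _ fun b _ => hint _]
  have h4 : ∀ a ∈ Bx d r, ∫ k, ∑ b ∈ Bx d r, ft f k * ch k (-(w + a - b)) ∂(mu d) =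
      ∑ b ∈ Bx d r, ((f (w + a - b) : ℝ) : ℂ) := by
    intro a _
    rw [integral_finsetSum _ fun b _ => hint _]
    exact Finset.sum_congr rfl fun b _ => inversion hf _
  rw [Finset.sum_congr rfl h4]
  unfold T
  push_cast
  rw [div_eq_mul_inv]

theorem T_ft {f : V d → ℝ} (hf : Summable f) (r : ℕ) (w : V d) :
    ENNReal.ofReal |T f r w| ≤
      ∫⁻ k, ‖ft f k‖ₑ * ∏ i, ENNReal.ofReal (h1 r (k i)) ∂(mu d) := by
  have hn : ∀ i : Fin d, ∀ k : Fin d → ℝ, 0 ≤ h1 r (k i) := by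
    intro i k
    unfold h1
    positivity
  have h0 : ENNReal.ofReal |T f r w| = ‖(T f r w : ℂ)‖ₑ := by
    rw [← ofReal_norm, Complex.norm_real, Real.norm_eq_abs]
  rw [h0, T_ft_eq hf r w]
  refine (enorm_integral_le_lintegral_enorm _).trans (le_of_eq ?_)
  refine lintegral_congr fun k => ?_
  have h2 : ‖((∏ i, h1 r (k i) : ℝ) : ℂ)‖ₑ = ∏ i, ENNReal.ofReal (h1 r (k i)) := by
    rw [← ofReal_norm, Complex.norm_real, Real.norm_eq_abs,
      abs_of_nonneg (Finset.prod_nonneg fun i _ => hn i k),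
      ENNReal.ofReal_prod_of_nonneg fun i _ => hn i k]
  have h3 : ‖ch k (-w)‖ₑ = 1 := by
    rw [← ofReal_norm, norm_ch, ENNReal.ofReal_one]
  rw [enorm_mul, enorm_mul, h2, h3, mul_one]

end H88GK
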