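import Pool.Agent.H88.GK.Cmp
import Pool.Agent.H88.GK.IntF
import Pool.Agent.H88.GK.Tst
import Pool.Agent.H15.LE.Brg

/-!
PROJECT LE, block G, GK-K5 (helper88). Lower bound for the sums of `tau` over cubes.

PROOF. `T t r w >= T G_N r w - C int prod h1 >= T G_N r w - C` by `cmp`, `T_ft`, `int_fej0` (`G_N = a sum_{n<N} m^n pz n`,
transform `a sum m^n ee^n`); `T G_N r w >= a sum_{n in [L^2, 2L^2)} m^n T (pz n) r w`, `m^n >= c` (`1 - m <= 2d/chi <= 2d/(c0 L^2)`),
`T (pz n) r w >= c L^-d r^d >= c 16^-d` (`pz_lower_K`, `T_ge`); so `sum_{cu w r} tau >= T t r w >= c L^2 - C`.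
-/

namespace H88GK

open H5DF H95LBD H95LE H15LE MeasureTheory

variable {d : ℕ}

lemma ft_sub {f g : V d → ℝ} (hf : Summable f) (hg : Summable g) (k : Fin d → ℝ) :
    ft (fun x => f x - g x) k = ft f k - ft g k := by
  unfold ft
  rw [← (summable_ft hf k).tsum_sub (summable_ft hg k)]
  refine tsum_congr fun x => ?_
  push_cast
  ring

lemma ft_fsum (s : Finset ℕ) (c : ℕ → ℝ) {f : ℕ → V d → ℝ} (hf : ∀ n, Summable (f n))
    (k : Fin d → ℝ) :
    ft (fun x => ∑ n ∈ s, c n * f n x) k = ∑ n ∈ s, (c n : ℂ) * ft (f n) k := by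
  unfold ft
  have h : ∀ x : V d, ((∑ n ∈ s, c n * f n x : ℝ) : ℂ) * ch k x =
      ∑ n ∈ s, (c n : ℂ) * ((f n x : ℂ) * ch k x) := by
    intro x
    push_cast
    rw [Finset.sum_mul]
    exact Finset.sum_congr rfl fun n _ => by ring
  simp only [h]
  rw [Summable.tsum_finsetSum fun n _ => (summable_ft (hf n) k).mul_left _]
  exact Finset.sum_congr rfl fun n _ => tsum_mul_left

lemma ft_pz' (n : ℕ) (k : Fin d → ℝ) : ft (pz d n) k = ((ee k ^ n : ℝ) : ℂ) := by
  rw [ft_pz, Finset.prod_pow]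
  rfl

/-- The test of the lazy walk after `n` steps. -/
lemma T_pz_low {L n r : ℕ} (hL : 27 ≤ L) (h1 : L ^ 2 ≤ n) (h2 : n ≤ 2 * L ^ 2) (w : V d)
    (hw : ∀ i, |w i| ≤ 8 * L) (hr : L ≤ 16 * r) (hrL : r ≤ L) :
    (Real.exp (-162) / 64) ^ d ≤ T (pz d n) r w := by
  have hL0 : (0 : ℝ) < L := by
    have : 0 < L := by omega
    exact_mod_cast this
  have hr1 : 1 ≤ r := by omega
  have hn1 : 1 ≤ n := le_trans (Nat.one_le_iff_ne_zero.2 (by positivity)) h1
  have hsq : Real.sqrt n ≤ 2 * L := by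
    rw [Real.sqrt_le_left (by positivity)]
    have : (n : ℝ) ≤ 2 * (L : ℝ) ^ 2 := by exact_mod_cast h2
    nlinarith [sq_nonneg (L : ℝ)]
  have hsq0 : 0 < Real.sqrt n := Real.sqrt_pos.2 (by exact_mod_cast hn1)
  have key := T_ge (f := pz d n) ((Real.exp (-162) / (4 * L)) ^ d) r hr1 w (fun z hz => by
    have hz' : ∀ j, (z j : ℝ) ^ 2 ≤ (9 : ℝ) ^ 2 * n := by
      intro j
      unfold cu at hz
      rw [Fintype.mem_piFinset] at hz
      have hj := hz j
      rw [Finset.mem_Icc] at hj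
      have hwj := abs_le.1 (hw j)
      have hz1 : |z j| ≤ 9 * L := by
        rw [abs_le]
        constructor <;> omega
      have hz2 : |(z j : ℝ)| ≤ 9 * L := by
        rw [← Int.cast_abs]
        exact_mod_cast hz1
      have h3 : (L : ℝ) ^ 2 ≤ n := by exact_mod_cast h1
      calc (z j : ℝ) ^ 2 = |(z j : ℝ)| ^ 2 := (sq_abs _).symm
        _ ≤ (9 * L) ^ 2 := by gcongr
        _ = 9 ^ 2 * (L : ℝ) ^ 2 := by ring
        _ ≤ 9 ^ 2 * n := by gcongr
    have hK : 9 * (9 : ℝ) ^ 2 ≤ n := by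
      have : 729 ≤ n := le_trans (by nlinarith) h1
      have : (729 : ℝ) ≤ n := by exact_mod_cast this
      linarith
    refine le_trans ?_ (pz_lower_K n 9 hn1 hK z hz')
    have e : -(2 * (9 : ℝ) ^ 2) = -162 := by norm_num
    rw [e]
    exact pow_le_pow_left₀ (by positivity) (div_le_div_of_nonneg_left (Real.exp_pos _).le
      (by positivity) (by linarith)) d)
  refine le_trans ?_ key
  rw [← mul_pow]
  gcongr
  rw [div_mul_eq_mul_div, div_le_div_iff₀ (by norm_num) (by positivity)]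
  have : (L : ℝ) ≤ 16 * r := by exact_mod_cast hr
  nlinarith [Real.exp_pos (-162)]

/-- K5: cube sums of `tau` at distance at most `8 L` are of order `L^2`, if `chi >= c0 L^2`. -/
theorem K5 (d : ℕ) (hd : 0 < d) (M c0 : ℝ) (hM : 0 ≤ M) (hc0 : 0 < c0) :
    ∃ c : ℝ, 0 < c ∧ ∃ L0 : ℕ, ∀ (p : ℝ) (X : V d → ℝ) (L : ℕ), Inp d p X → 1 / 2 ≤ 2 * d * p →
      Summable (fun x => (wm 2 x : ℝ) * |X x|) → ∑' x, (wm 2 x : ℝ) * |X x| ≤ M →
      L0 ≤ L → c0 * (L : ℝ) ^ 2 ≤ ∑' x, tr d p x →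
      ∀ (w : V d) (r : ℕ), (∀ i, |w i| ≤ 8 * L) → L ≤ 16 * r → r ≤ L →
        c * (L : ℝ) ^ 2 ≤ ∑ z ∈ cu w r, tr d p z := by
  obtain ⟨C, hC0, hC⟩ := cmp d hd M hM
  set y : ℝ := 2 * d / c0 with hy
  have hy0 : 0 ≤ y := by positivity
  set kp : ℝ := (Real.exp (-162) / 64) ^ d with hkp
  have hkp0 : 0 < kp := by positivity
  set c1 : ℝ := 1 / 5 * (Real.exp (-(4 * y)) * kp) with hc1
  have hc10 : 0 < c1 := by positivity
  refine ⟨c1 / 2, by positivity, 27 + Nat.ceil (2 * y) + Nat.ceil (2 * C / c1), ?_⟩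
  intro p X L hI hp hS hM' hL0 hchi w r hw hr hrL
  have hL27 : 27 ≤ L := by omega
  have hLr : (0 : ℝ) < L := by
    have : 0 < L := by omega
    exact_mod_cast this
  have hL1 : (1 : ℝ) ≤ L := by
    have : 1 ≤ L := by omega
    exact_mod_cast this
  have hLL : (L : ℝ) ≤ (L : ℝ) ^ 2 := by nlinarith
  have hLy : 2 * y ≤ (L : ℝ) ^ 2 := by
    refine (Nat.le_ceil (2 * y)).trans (le_trans ?_ hLL)
    exact_mod_cast (by omega : Nat.ceil (2 * y) ≤ L)
  have hLC : 2 * C / c1 ≤ (L : ℝ) ^ 2 := by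
    refine (Nat.le_ceil (2 * C / c1)).trans (le_trans ?_ hLL)
    exact_mod_cast (by omega : Nat.ceil (2 * C / c1) ≤ L)
  obtain ⟨a, m, ha, hm0, hm1, hm2, N0, hN⟩ := hC p X hI hp hS hM'
  have hst : Summable (tr d p) := (ws_tr hI.fin).sum
  have h0 : ∀ x, 0 ≤ tr d p x := fun x => tr_nonneg p x
  set N : ℕ := N0 + 2 * L ^ 2 with hNdef
  set G : V d → ℝ := fun x => ∑ n ∈ Finset.range N, (a * m ^ n) * pz d n x with hG
  have hGs : Summable G := summable_sum fun n _ => (pz_summable n).mul_left _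
  have hft : ∀ k, ft (fun x => tr d p x - G x) k =
      ft (tr d p) k - ((a * ∑ n ∈ Finset.range N, m ^ n * ee k ^ n : ℝ) : ℂ) := by
    intro k
    rw [ft_sub hst hGs, hG, ft_fsum _ _ (fun n => pz_summable n)]
    congr 1
    push_cast
    rw [Finset.mul_sum]
    refine Finset.sum_congr rfl fun n _ => ?_
    rw [ft_pz']
    push_cast
    ring
  have hdiff : |T (fun x => tr d p x - G x) r w| ≤ C := by
    rw [← ENNReal.ofReal_le_ofReal_iff hC0]
    calc ENNReal.ofReal |T (fun x => tr d p x - G x) r w|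
        ≤ ∫⁻ k, ‖ft (fun x => tr d p x - G x) k‖ₑ * ∏ i, ENNReal.ofReal (h1 r (k i)) ∂(mu d) :=
          T_ft (hst.sub hGs) r w
      _ ≤ ∫⁻ k, ENNReal.ofReal C * ∏ i, ENNReal.ofReal (h1 r (k i)) ∂(mu d) := by
          refine lintegral_mono_ae ?_
          filter_upwards [hN N (by omega)] with k hk
          refine mul_le_mul' ?_ le_rfl
          rw [hft k, ← ofReal_norm_eq_enorm]
          exact ENNReal.ofReal_le_ofReal hk
      _ = ENNReal.ofReal C * ∫⁻ k, ∏ i, ENNReal.ofReal (h1 r (k i)) ∂(mu d) :=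
          lintegral_const_mul' _ _ ENNReal.ofReal_ne_top
      _ ≤ ENNReal.ofReal C * 1 := mul_le_mul' le_rfl (int_fej0 d r)
      _ = ENNReal.ofReal C := mul_one _
  have hTG : c1 * (L : ℝ) ^ 2 ≤ T G r w := by
    have e1 : T G r w = ∑ n ∈ Finset.range N, (a * m ^ n) * T (pz d n) r w := by
      rw [hG, T_sum]
      exact Finset.sum_congr rfl fun n _ => T_smul _ _ _ _
    rw [e1]
    have hsub : Finset.Ico (L ^ 2) (2 * L ^ 2) ⊆ Finset.range N := by
      intro n hn
      rw [Finset.mem_Ico] at hn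
      rw [Finset.mem_range]
      omega
    have e2 : ∑ n ∈ Finset.Ico (L ^ 2) (2 * L ^ 2), c1 ≤
        ∑ n ∈ Finset.range N, (a * m ^ n) * T (pz d n) r w := by
      refine le_trans (Finset.sum_le_sum fun n hn => ?_)
        (Finset.sum_le_sum_of_subset_of_nonneg hsub fun n _ _ =>
          mul_nonneg (by positivity) (T_nonneg (pz_nonneg n) r w))
      rw [Finset.mem_Ico] at hn
      have hT := T_pz_low hL27 hn.1 hn.2.le w hw hr hrL
      have hx : 1 - m ≤ y / (L : ℝ) ^ 2 := by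
        refine hm2.trans ?_
        rw [hy, div_div]
        exact div_le_div_of_nonneg_left (by positivity) (by positivity) hchi
      have hx2 : y / (L : ℝ) ^ 2 ≤ 1 / 2 := by
        rw [div_le_div_iff₀ (by positivity) (by norm_num)]
        linarith
      have hm3 : Real.exp (-(4 * y)) ≤ m ^ n := by
        calc Real.exp (-(4 * y)) ≤ Real.exp (-(2 * (y / (L : ℝ) ^ 2))) ^ n := by
              rw [← Real.exp_nat_mul]
              refine Real.exp_le_exp.2 ?_
              have : (n : ℝ) ≤ 2 * (L : ℝ) ^ 2 := by exact_mod_cast hn.2.le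
              have h3 : (n : ℝ) * (2 * (y / (L : ℝ) ^ 2)) ≤
                  2 * (L : ℝ) ^ 2 * (2 * (y / (L : ℝ) ^ 2)) := by gcongr
              have h4 : 2 * (L : ℝ) ^ 2 * (2 * (y / (L : ℝ) ^ 2)) = 4 * y := by
                field_simp
                ring
              linarith
          _ ≤ m ^ n := by
              refine pow_le_pow_left₀ (Real.exp_pos _).le ?_ n
              have h5 := one_sub_exp (x := y / (L : ℝ) ^ 2) (by positivity) hx2
              linarith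
      calc c1 = 1 / 5 * (Real.exp (-(4 * y)) * kp) := hc1
        _ ≤ a * (m ^ n * T (pz d n) r w) := by
            gcongr
        _ = a * m ^ n * T (pz d n) r w := by ring
    refine le_trans ?_ e2
    rw [Finset.sum_const, Nat.card_Ico, nsmul_eq_mul]
    have : 2 * L ^ 2 - L ^ 2 = L ^ 2 := by omega
    rw [this]
    push_cast
    linarith
  have hTt : T (fun x => tr d p x - G x) r w = T (tr d p) r w - T G r w := T_sub _ _ _ _
  have hfin := T_le h0 r (by omega) w
  have h6 : C ≤ c1 / 2 * (L : ℝ) ^ 2 := by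
    rw [div_le_iff₀ hc10] at hLC
    linarith
  have h7 := (abs_le.1 hdiff).1
  rw [hTt] at h7
  linarith

end H88GK
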