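import Pool.Agent.H88.GK.K4
import Pool.Agent.H88.GK.K5
import Pool.Agent.H4.LW.FinW
import Pool.Agent.H5.CG.Inp
import Pool.Agent.H95.LE.LaceW

/-!
PROJECT LE, block G, GK-Out (helper88). The structure `CG.Rough` (K1 - K6) from the outputs of the lace expansion with
the weight `wm 8`, the bounds for the susceptibility and the bound for `theta`.
-/

namespace H88GK

open H5DF H95LBD H95LE H15LE H4LW MeasureTheory
open scoped ENNReal

variable {d : ℕ}

lemma mem_cu_nm {w z : V d} {s : ℕ} : z ∈ cu w s ↔ nm (z - w) ≤ s := by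
  unfold cu
  rw [Fintype.mem_piFinset, nm_le]
  refine forall_congr' fun i => ?_
  rw [Finset.mem_Icc, Pi.sub_apply]
  omega

lemma tsum_cu (f : V d → ℝ≥0∞) (w : V d) (s : ℕ) :
    ∑' z : V d, (if nm (z - w) ≤ s then f z else 0) = ∑ z ∈ cu w s, f z := by
  rw [tsum_eq_sum (s := cu w s)]
  · exact Finset.sum_congr rfl fun z hz => if_pos (mem_cu_nm.1 hz)
  · intro z hz
    rw [if_neg fun h => hz (mem_cu_nm.2 h)]

lemma t2_eq (p : ℝ) : CG.t2 d p = cvp (tau d p) 1 := rfl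

lemma t4_eq (p : ℝ) : CG.t4 d p = cvp (tau d p) 3 := by
  change cv (cv (tau d p) (tau d p)) (cv (tau d p) (tau d p)) =
    cv (tau d p) (cv (tau d p) (cv (tau d p) (tau d p)))
  exact cv_assoc _ _ _

lemma nm_pow_le (z : V d) : nm z ^ 16 + 1 ≤ wm 8 z := by
  have h : nm z ^ 16 ≤ ∑ i, (z i).natAbs ^ 16 := by
    by_cases hd : (Finset.univ : Finset (Fin d)).Nonempty
    · obtain ⟨i, -, hi⟩ := Finset.exists_mem_eq_sup Finset.univ hd fun i => (z i).natAbs
      have : nm z = (z i).natAbs := hi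
      rw [this]
      exact Finset.single_le_sum (f := fun i => (z i).natAbs ^ 16) (fun i _ => Nat.zero_le _)
        (Finset.mem_univ i)
    · rw [Finset.not_nonempty_iff_eq_empty] at hd
      have : nm z = 0 := by simp [nm, hd]
      rw [this]
      simp
  unfold wm
  have e : 2 * 8 = 16 := rfl
  rw [e]
  omega

lemma nm_wm (z : V d) : (1 + nm z) ^ 16 ≤ 2 ^ 16 * wm 8 z := by
  have h := nm_pow_le z
  rcases Nat.eq_zero_or_pos (nm z) with h0 | h0
  · rw [h0]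
    have : 1 ≤ wm 8 z := by omega
    calc (1 + 0) ^ 16 ≤ 2 ^ 16 * 1 := by norm_num
      _ ≤ 2 ^ 16 * wm 8 z := Nat.mul_le_mul_left _ this
  · calc (1 + nm z) ^ 16 ≤ (2 * nm z) ^ 16 := Nat.pow_le_pow_left (by omega) 16
      _ = 2 ^ 16 * nm z ^ 16 := by rw [mul_pow]
      _ ≤ 2 ^ 16 * wm 8 z := Nat.mul_le_mul_left _ (by omega)

lemma far_bd {p K : ℝ} (h0 : 0 ≤ p) (h1 : p ≤ 1) (hK0 : 0 ≤ K)
    (hsq : H95LE.sq (gw (wm 8 : V d → ℕ) p) ≤ ENNReal.ofReal K) (z : V d) :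
    CG.t4 d p z ≤ ENNReal.ofReal (2 ^ 16 * (4 ^ 8) ^ 3 * K / (1 + (nm z : ℝ)) ^ 16) := by
  have hpos : (0 : ℝ) < (1 + (nm z : ℝ)) ^ 16 := by positivity
  rw [ENNReal.ofReal_div_of_pos hpos]
  have hne : ENNReal.ofReal ((1 + (nm z : ℝ)) ^ 16) ≠ 0 := by
    rw [Ne, ENNReal.ofReal_eq_zero, not_le]
    exact hpos
  rw [ENNReal.le_div_iff_mul_le (Or.inl hne) (Or.inl ENNReal.ofReal_ne_top), t4_eq]
  have e1 : ENNReal.ofReal ((1 + (nm z : ℝ)) ^ 16) ≤ (2 ^ 16 : ℕ) * (wm 8 z : ℝ≥0∞) := by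
    have : (1 + (nm z : ℝ)) ^ 16 = (((1 + nm z) ^ 16 : ℕ) : ℝ) := by push_cast; rfl
    rw [this, ENNReal.ofReal_natCast]
    exact_mod_cast nm_wm z
  have e2 := K3w (wm_wt (d := d) 8 (by norm_num)) p h0 h1 z
  calc cvp (tau d p) 3 z * ENNReal.ofReal ((1 + (nm z : ℝ)) ^ 16)
      ≤ cvp (tau d p) 3 z * ((2 ^ 16 : ℕ) * (wm 8 z : ℝ≥0∞)) := mul_le_mul' le_rfl e1
    _ = (2 ^ 16 : ℕ) * ((wm 8 z : ℝ≥0∞) * cvp (tau d p) 3 z) := by ring
    _ ≤ (2 ^ 16 : ℕ) * (((4 ^ 8 : ℕ) : ℝ≥0∞) ^ 3 * H95LE.sq (gw (wm 8) p)) :=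
        mul_le_mul' le_rfl e2
    _ ≤ (2 ^ 16 : ℕ) * (((4 ^ 8 : ℕ) : ℝ≥0∞) ^ 3 * ENNReal.ofReal K) :=
        mul_le_mul' le_rfl (mul_le_mul' le_rfl hsq)
    _ = ENNReal.ofReal (2 ^ 16 * (4 ^ 8) ^ 3 * K) := by
        rw [ENNReal.ofReal_mul (by positivity), ENNReal.ofReal_mul (by positivity), mul_assoc]
        congr 1
        · rw [← ENNReal.ofReal_natCast]; norm_num
        · congr 1
          rw [← ENNReal.ofReal_natCast, ← ENNReal.ofReal_pow (by positivity)]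
          norm_num

lemma tri_bd {p K : ℝ} (h0 : 0 ≤ p) (h1 : p ≤ 1)
    (hsq : H95LE.sq (gw (wm 8 : V d → ℕ) p) ≤ ENNReal.ofReal K) :
    ∑' z : V d, (nm z : ℝ≥0∞) * (tau d p z * CG.t2 d p z) ≤ ENNReal.ofReal K := by
  have hw := wm_wt (d := d) 8 (by norm_num)
  set g : V d → ℝ≥0∞ := gw (wm 8) p with hg
  have he : ∀ x, g (-x) = g x := gw_neg hw p h0 h1
  have hg0 : 1 ≤ g 0 := (gw_zero hw p h0 h1).symm.le
  have e1 : ∀ z : V d, (nm z : ℝ≥0∞) * (tau d p z * CG.t2 d p z) ≤ g z * cv g g (0 - z) := by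
    intro z
    rw [zero_sub, cv_even he he, ← mul_assoc]
    refine mul_le_mul' ?_ (cv_mono (tau_le_gw hw p) (tau_le_gw hw p) z)
    refine mul_le_mul' ?_ le_rfl
    have h2 := nm_pow_le z
    have h3 : nm z ≤ nm z ^ 16 := Nat.le_self_pow (by norm_num) _
    exact_mod_cast (by omega : nm z ≤ wm 8 z)
  calc ∑' z : V d, (nm z : ℝ≥0∞) * (tau d p z * CG.t2 d p z)
      ≤ ∑' z : V d, g z * cv g g (0 - z) := ENNReal.tsum_le_tsum e1
    _ = cv g (cv g g) 0 := rfl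
    _ ≤ cv g (cv g (cv g g)) 0 := H88GK.le_cv hg0 0
    _ ≤ _ := hsq

lemma mom_bd (p : ℝ) :
    ∑' x : V d, ENNReal.ofReal ((nm x : ℝ) ^ 16) * tau d p x ≤ ∑' x : V d, gw (wm 8) p x := by
  refine ENNReal.tsum_le_tsum fun x => mul_le_mul' ?_ le_rfl
  have : (nm x : ℝ) ^ 16 = ((nm x ^ 16 : ℕ) : ℝ) := by push_cast; rfl
  rw [this, ENNReal.ofReal_natCast]
  have h := nm_pow_le x
  exact_mod_cast (by omega : nm x ^ 16 ≤ wm 8 x)

lemma wm2_le (x : V d) : (wm 2 x : ℝ) ≤ (wm 8 x : ℝ) := by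
  have : wm 2 x ≤ wm 8 x := by
    unfold wm
    refine Nat.add_le_add_left (Finset.sum_le_sum fun i _ => ?_) 1
    rcases Nat.eq_zero_or_pos (x i).natAbs with h | h
    · rw [h]; simp
    · exact Nat.pow_le_pow_right h (by norm_num)
  exact_mod_cast this

lemma M_bd {p : ℝ} {X : V d → ℝ} (hI : InpW 8 d p X) :
    (Summable fun x => (wm 2 x : ℝ) * |X x|) ∧ ∑' x, (wm 2 x : ℝ) * |X x| ≤ 2 := by
  have hs1 : Summable fun x => (wm 8 x : ℝ) * |X x| := hI.sX
  have hs2 : Summable fun x => (wm 8 x : ℝ) * |X x - (if x = 0 then 1 else 0)| := hI.sX.sub_delta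
  have hs0 : Summable fun x : V d => if x = 0 then (1 : ℝ) else 0 :=
    summable_of_ne_finset_zero (s := {0}) fun x hx => if_neg (by simpa using hx)
  have hs : Summable fun x => (wm 2 x : ℝ) * |X x| :=
    Summable.of_nonneg_of_le (fun x => by positivity)
      (fun x => mul_le_mul_of_nonneg_right (wm2_le x) (abs_nonneg _)) hs1
  refine ⟨hs, ?_⟩
  have h1 : ∀ x : V d, (wm 2 x : ℝ) * |X x| ≤
      (wm 8 x : ℝ) * |X x - (if x = 0 then 1 else 0)| + (if x = 0 then (1 : ℝ) else 0) := by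
    intro x
    by_cases hx : x = 0
    · subst hx
      have e : ∀ m : ℕ, 1 ≤ m → (wm m (0 : V d) : ℝ) = 1 := by
        intro m hm
        have := (wm_wt (d := d) m hm).zero
        rw [this]; norm_num
      rw [e 2 (by norm_num), e 8 (by norm_num)]
      simp only [if_true, one_mul]
      have := abs_sub_abs_le_abs_sub (X 0) 1
      rw [abs_one] at this
      linarith
    · simp only [if_neg hx, sub_zero, add_zero]
      exact mul_le_mul_of_nonneg_right (wm2_le x) (abs_nonneg _)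
  have h2 : ∑' x : V d, (if x = 0 then (1 : ℝ) else 0) = 1 := by
    rw [tsum_eq_single 0 fun x hx => if_neg hx, if_pos rfl]
  calc ∑' x, (wm 2 x : ℝ) * |X x|
      ≤ ∑' x : V d, ((wm 8 x : ℝ) * |X x - (if x = 0 then 1 else 0)| +
          (if x = 0 then (1 : ℝ) else 0)) := Summable.tsum_le_tsum h1 hs (hs2.add hs0)
    _ = (∑' x : V d, (wm 8 x : ℝ) * |X x - (if x = 0 then 1 else 0)|) + 1 := by
        rw [hs2.tsum_add hs0, h2]
    _ ≤ 1 / 12 + 1 := by linarith [hI.bX]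
    _ ≤ 2 := by norm_num

/-- The inputs of the chain flow proof. -/
theorem rough (hd : 16 ≤ d) {pc K A : ℝ} (hpc0 : 0 < pc) (hpc1 : pc < 1) (hlam : 1 ≤ 2 * d * pc)
    (hA : 0 ≤ A) (hK0 : 0 ≤ K)
    (hI : ∀ p, pc / 2 ≤ p → p < pc → InpW 8 d p (lacX d p))
    (hK : ∀ p, pc / 2 ≤ p → p < pc → H95LE.sq (gw (wm 8 : V d → ℕ) p) ≤ ENNReal.ofReal K)
    (hchi : ∀ p, pc / 2 ≤ p → p < pc → ∑' x : V d, tau d p x ≤ ENNReal.ofReal (A / (pc - p)))
    (hlow : ∀ p, pc / 2 ≤ p → p < pc →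
      ENNReal.ofReal ((1 - p) / (2 * (d : ℝ) * (pc - p))) ≤ ∑' x : V d, tau d p x)
    (hth : ∃ δ : ℝ, 0 < δ ∧ ∀ e : ℝ, 0 < e → e < δ → theta d (pc + e) ≤ A * e) :
    ∃ A', CG.Rough d pc A' := by
  obtain ⟨C, hC0, hC⟩ := four_twoW 8 (by norm_num)
  have hd0 : 0 < d := by omega
  have hdr : (0 : ℝ) < d := by exact_mod_cast hd0
  set B1 : ℝ := C * A ^ 9 with hB1
  set B2 : ℝ := 2 ^ 16 * (4 ^ 8) ^ 3 * K with hB2
  set B3 : ℝ := 24 ^ d * 9 ^ 2 * 5 ^ 2 with hB3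
  set B4 : ℝ := 24 ^ d * 9 ^ 4 * 5 ^ 4 with hB4
  have p1 : 0 ≤ B1 := by positivity
  have p2 : 0 ≤ B2 := by positivity
  have p3 : 0 ≤ B3 := by positivity
  have p4 : 0 ≤ B4 := by positivity
  set A' : ℝ := 1 + A + B1 + B2 + K + B3 + B4 with hA'
  have q1 : ∀ p, pc / 2 ≤ p → p < pc → 0 ≤ p ∧ p ≤ 1 := fun p h1 h2 =>
    ⟨by linarith, by linarith⟩
  refine ⟨A', ⟨hpc0, hpc1, by linarith, ?_, ?_, ?_, ?_, ?_, ?_, ?_, ?_⟩⟩
  · intro p h1 h2
    refine (hchi p h1 h2).trans (ENNReal.ofReal_le_ofReal ?_)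
    have : 0 < pc - p := by linarith
    gcongr
    linarith
  · intro p h1 h2
    have hpp : 0 < pc - p := by linarith
    calc ∑' x : V d, ENNReal.ofReal ((nm x : ℝ) ^ 16) * tau d p x
        ≤ ∑' x : V d, gw (wm 8) p x := mom_bd p
      _ ≤ ENNReal.ofReal C * (∑' x, tau d p x) ^ (1 + 8) := (hC d p _ (hI p h1 h2)).2
      _ ≤ ENNReal.ofReal C * ENNReal.ofReal (A / (pc - p)) ^ (1 + 8) := by
          gcongr
          exact hchi p h1 h2
      _ = ENNReal.ofReal (B1 / (pc - p) ^ 9) := by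
          rw [← ENNReal.ofReal_pow (by positivity), ← ENNReal.ofReal_mul hC0]
          congr 1
          rw [div_pow, hB1]
          ring
      _ ≤ ENNReal.ofReal (A' / (pc - p) ^ 9) := by
          refine ENNReal.ofReal_le_ofReal ?_
          gcongr
          linarith
  · intro p h1 h2 z
    refine (far_bd (q1 p h1 h2).1 (q1 p h1 h2).2 hK0 (hK p h1 h2) z).trans
      (ENNReal.ofReal_le_ofReal ?_)
    gcongr
    linarith
  · intro p h1 h2
    refine (tri_bd (q1 p h1 h2).1 (q1 p h1 h2).2 (hK p h1 h2)).trans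
      (ENNReal.ofReal_le_ofReal ?_)
    linarith
  · intro p h1 h2 n hn
    have h3 := K4 ((hI p h1 h2).inp (by norm_num)) 1 (by omega) 0 n hn
    rw [← tsum_cu] at h3
    simp only [sub_zero] at h3
    rw [t2_eq]
    refine h3.trans (ENNReal.ofReal_le_ofReal ?_)
    norm_num
    gcongr
    rw [hA', hB3]
    norm_num
    linarith
  · intro p h1 h2 n hn
    have h3 := K4 ((hI p h1 h2).inp (by norm_num)) 3 (by omega) 0 n hn
    rw [← tsum_cu] at h3
    simp only [sub_zero] at h3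
    rw [t4_eq]
    refine h3.trans (ENNReal.ofReal_le_ofReal ?_)
    norm_num
    gcongr
    rw [hA', hB4]
    norm_num
    linarith
  · have hc0 : 0 < (1 - pc) / (2 * d) := div_pos (by linarith) (by positivity)
    obtain ⟨c, hc, L0, h5⟩ := K5 d hd0 2 ((1 - pc) / (2 * d)) (by norm_num) hc0
    refine ⟨c, L0 + 8 + Nat.ceil (2 / pc) + 1, hc, by omega, ?_⟩
    intro L hL z hz
    have hLr : (0 : ℝ) < L := by
      have : 0 < L := by omega
      exact_mod_cast this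
    have hL1 : (1 : ℝ) ≤ L := by
      have : 1 ≤ L := by omega
      exact_mod_cast this
    have hLp : 2 / pc ≤ (L : ℝ) := by
      refine (Nat.le_ceil (2 / pc)).trans ?_
      exact_mod_cast (by omega : Nat.ceil (2 / pc) ≤ L)
    have hLp2 : 2 / pc ≤ (L : ℝ) ^ 2 := hLp.trans (by nlinarith)
    set q : ℝ := pc - 1 / (L : ℝ) ^ 2 with hq
    have hq1 : pc / 2 ≤ q := by
      have : 1 / (L : ℝ) ^ 2 ≤ pc / 2 := by
        rw [div_le_div_iff₀ (by positivity) (by norm_num)]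
        rw [div_le_iff₀ hpc0] at hLp2
        linarith
      linarith
    have hq2 : q < pc := by
      have : 0 < 1 / (L : ℝ) ^ 2 := by positivity
      linarith
    have hIq := hI q hq1 hq2
    have hIn := hIq.inp (by norm_num)
    have hst : Summable (tr d q) := (ws_tr hIn.fin).sum
    have hchiq : (1 - pc) / (2 * d) * (L : ℝ) ^ 2 ≤ ∑' x, tr d q x := by
      have h6 := hlow q hq1 hq2
      have h7 : ∑' x : V d, tau d q x = ENNReal.ofReal (∑' x, tr d q x) := by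
        rw [ENNReal.ofReal_tsum_of_nonneg (tr_nonneg q) hst]
        exact tsum_congr fun x => tau_eq hIn.fin x
      rw [h7, ENNReal.ofReal_le_ofReal_iff (tsum_nonneg (tr_nonneg q))] at h6
      refine le_trans ?_ h6
      have h8 : pc - q = 1 / (L : ℝ) ^ 2 := by rw [hq]; ring
      rw [h8, div_mul_eq_mul_div, div_le_div_iff₀ (by positivity) (by positivity)]
      have h9 : 2 * (d : ℝ) * (1 / (L : ℝ) ^ 2) * (L : ℝ) ^ 2 = 2 * d := by
        field_simp
      calc (1 - pc) * (L : ℝ) ^ 2 * (2 * (d : ℝ) * (1 / (L : ℝ) ^ 2))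
          = (1 - pc) * (2 * (d : ℝ) * (1 / (L : ℝ) ^ 2) * (L : ℝ) ^ 2) := by ring
        _ = (1 - pc) * (2 * d) := by rw [h9]
        _ ≤ (1 - q) * (2 * d) := by
            have : (1 - pc) ≤ (1 - q) := by linarith
            gcongr
    have h10 := h5 q (lacX d q) L hIn (by nlinarith) (M_bd hIq).1 (M_bd hIq).2 (by omega) hchiq z
      (L / 8) (fun i => by
        have h11 := natAbs_le_nm z i
        rw [abs_le]
        constructor <;> omega) (by omega) (by omega)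
    have h12 : ∑' u : V d, (if 8 * nm (u - z) ≤ L then tau d q u else 0) =
        ENNReal.ofReal (∑ u ∈ cu z (L / 8), tr d q u) := by
      rw [ENNReal.ofReal_sum_of_nonneg fun u _ => tr_nonneg q u]
      have h13 : ∀ u : V d, (if 8 * nm (u - z) ≤ L then tau d q u else 0) =
          if nm (u - z) ≤ L / 8 then tau d q u else 0 := by
        intro u
        by_cases h : 8 * nm (u - z) ≤ L
        · rw [if_pos h, if_pos (by omega)]
        · rw [if_neg h, if_neg (by omega)]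
      simp only [h13]
      rw [tsum_cu]
      exact Finset.sum_congr rfl fun u _ => tau_eq hIn.fin u
    rw [h12]
    exact ENNReal.ofReal_le_ofReal h10
  · obtain ⟨δ, hδ, h⟩ := hth
    refine ⟨δ, hδ, fun e he1 he2 => (h e he1 he2).trans ?_⟩
    gcongr
    linarith

end H88GK
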