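import Mathlib

/-!
PROJECT LE, BLOCK G (by helper60). The symmetric binomial law `bn n z = binom(2n, n + |z|) / 4^n`:
`4^n <= 2 sqrt n centralBinom n`, `(3n+1) centralBinom n ^2 <= 16^n`, `bn n z >= exp (-2 z^2 / n) / (2 sqrt n)` for `3 |z| <= n + 2`,
monotonicity in `|z|`, upper bound.
-/

namespace H88GK

/-- The law of the sum of `2n` fair signs, divided by two. -/
noncomputable def bn (n : ℕ) (z : ℤ) : ℝ := ((2 * n).choose (n + z.natAbs) : ℝ) / 4 ^ n

lemma bn_nonneg (n : ℕ) (z : ℤ) : 0 ≤ bn n z := by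
  unfold bn; positivity

lemma bn_neg (n : ℕ) (z : ℤ) : bn n (-z) = bn n z := by
  unfold bn; rw [Int.natAbs_neg]

lemma bn_zero_eq (n : ℕ) : bn n 0 = (n.centralBinom : ℝ) / 4 ^ n := by
  unfold bn
  rw [Int.natAbs_zero, add_zero, Nat.centralBinom_eq_two_mul_choose]

lemma bn_of_lt {n : ℕ} {z : ℤ} (h : n < z.natAbs) : bn n z = 0 := by
  unfold bn
  rw [Nat.choose_eq_zero_of_lt (by omega)]
  simp

/-- The recursion of the central binomial coefficients in the reals. -/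
lemma cb_succ (n : ℕ) :
    ((n : ℝ) + 1) * ((n + 1).centralBinom : ℝ) = 2 * (2 * n + 1) * (n.centralBinom : ℝ) := by
  exact_mod_cast Nat.succ_mul_centralBinom_succ n

lemma cb_lower_sq : ∀ n : ℕ, 1 ≤ n → (16 : ℝ) ^ n ≤ 4 * n * (n.centralBinom : ℝ) ^ 2 := by
  intro n hn
  induction n, hn using Nat.le_induction with
  | base => norm_num [Nat.centralBinom]
  | succ n hn ih =>
    have h := cb_succ n
    have hn1 : (0 : ℝ) < (n : ℝ) + 1 := by positivity
    have e : ((n + 1).centralBinom : ℝ) = 2 * (2 * n + 1) * (n.centralBinom : ℝ) / (n + 1) := by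
      rw [eq_div_iff hn1.ne', mul_comm]; exact h
    rw [e]
    push_cast
    have : 4 * ((n : ℝ) + 1) * (2 * (2 * n + 1) * (n.centralBinom : ℝ) / (n + 1)) ^ 2 =
        16 * (4 * n * (n.centralBinom : ℝ) ^ 2) + 16 * (n.centralBinom : ℝ) ^ 2 / (n + 1) := by
      field_simp
      ring
    rw [this, pow_succ]
    have h2 : 0 ≤ 16 * (n.centralBinom : ℝ) ^ 2 / ((n : ℝ) + 1) := by positivity
    linarith

lemma cb_upper_sq (n : ℕ) : (3 * n + 1) * (n.centralBinom : ℝ) ^ 2 ≤ 16 ^ n := by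
  induction n with
  | zero => norm_num [Nat.centralBinom]
  | succ n ih =>
    have h := cb_succ n
    have hn1 : (0 : ℝ) < (n : ℝ) + 1 := by positivity
    have e : ((n + 1).centralBinom : ℝ) = 2 * (2 * n + 1) * (n.centralBinom : ℝ) / (n + 1) := by
      rw [eq_div_iff hn1.ne', mul_comm]; exact h
    rw [e]
    push_cast
    have h3 : (3 * ((n : ℝ) + 1) + 1) * (2 * (2 * n + 1) * (n.centralBinom : ℝ) / (n + 1)) ^ 2 =
        16 * ((3 * n + 1) * (n.centralBinom : ℝ) ^ 2) -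
          4 * n * (n.centralBinom : ℝ) ^ 2 / (n + 1) ^ 2 := by
      field_simp
      ring
    have e16 : (16 : ℝ) ^ (n + 1) = 16 ^ n * 16 := pow_succ _ _
    rw [h3, e16]
    have h2 : 0 ≤ 4 * (n : ℝ) * (n.centralBinom : ℝ) ^ 2 / ((n : ℝ) + 1) ^ 2 := by positivity
    linarith

/-- `4^n <= 2 sqrt n binom(2n,n)`. -/
theorem four_pow_le (n : ℕ) (hn : 1 ≤ n) :
    (4 : ℝ) ^ n ≤ 2 * Real.sqrt n * (n.centralBinom : ℝ) := by
  have h := cb_lower_sq n hn
  refine le_of_sq_le_sq ?_ (by positivity)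
  calc ((4 : ℝ) ^ n) ^ 2 = 16 ^ n := by rw [← pow_mul, mul_comm n 2, pow_mul]; norm_num
    _ ≤ 4 * n * (n.centralBinom : ℝ) ^ 2 := h
    _ = (2 * Real.sqrt n * (n.centralBinom : ℝ)) ^ 2 := by
        rw [mul_pow, mul_pow, Real.sq_sqrt (Nat.cast_nonneg n)]; ring

theorem bn_zero_lower (n : ℕ) (hn : 1 ≤ n) : 1 / (2 * Real.sqrt n) ≤ bn n 0 := by
  have hs : 0 < Real.sqrt n := Real.sqrt_pos.2 (by exact_mod_cast hn)
  rw [bn_zero_eq, div_le_div_iff₀ (by positivity) (by positivity), one_mul, mul_comm]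
  exact four_pow_le n hn

theorem bn_zero_upper (n : ℕ) : bn n 0 ≤ 1 / Real.sqrt (3 * n + 1) := by
  have hs : 0 < Real.sqrt (3 * n + 1) := Real.sqrt_pos.2 (by positivity)
  rw [bn_zero_eq, div_le_div_iff₀ (by positivity) hs, one_mul]
  refine le_of_sq_le_sq ?_ (by positivity)
  rw [mul_pow, Real.sq_sqrt (by positivity)]
  calc (n.centralBinom : ℝ) ^ 2 * (3 * n + 1) = (3 * n + 1) * (n.centralBinom : ℝ) ^ 2 := by ring
    _ ≤ 16 ^ n := cb_upper_sq n
    _ = ((4 : ℝ) ^ n) ^ 2 := by rw [← pow_mul, mul_comm n 2, pow_mul]; norm_num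

/-- One step to the right. -/
lemma choose_step (n z : ℕ) :
    ((n : ℝ) + z + 1) * ((2 * n).choose (n + (z + 1)) : ℝ) =
      ((n : ℝ) - z) * ((2 * n).choose (n + z) : ℝ) := by
  have h := Nat.choose_succ_right_eq (2 * n) (n + z)
  by_cases hz : z ≤ n
  · have h2 : 2 * n - (n + z) = n - z := by omega
    rw [h2] at h
    have h3 : (((2 * n).choose (n + z + 1) * (n + z + 1) : ℕ) : ℝ) =
        (((2 * n).choose (n + z) * (n - z) : ℕ) : ℝ) := by exact_mod_cast h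
    push_cast [Nat.cast_sub hz] at h3
    rw [← add_assoc]
    linarith
  · rw [Nat.choose_eq_zero_of_lt (show 2 * n < n + (z + 1) by omega),
      Nat.choose_eq_zero_of_lt (show 2 * n < n + z by omega)]
    simp

lemma choose_anti (n z : ℕ) : (2 * n).choose (n + (z + 1)) ≤ (2 * n).choose (n + z) := by
  have h := choose_step n z
  have h1 : (0 : ℝ) ≤ ((2 * n).choose (n + (z + 1)) : ℝ) := by positivity
  have h2 : (0 : ℝ) ≤ ((2 * n).choose (n + z) : ℝ) := by positivity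
  have hz : (0 : ℝ) ≤ z := by positivity
  have hn : (0 : ℝ) ≤ n := by positivity
  have h3 : ((2 * n).choose (n + (z + 1)) : ℝ) ≤ ((2 * n).choose (n + z) : ℝ) := by
    by_contra hc
    push Not at hc
    nlinarith
  exact_mod_cast h3

lemma choose_anti_le (n : ℕ) {z z' : ℕ} (h : z ≤ z') :
    (2 * n).choose (n + z') ≤ (2 * n).choose (n + z) := by
  induction z', h using Nat.le_induction with
  | base => exact le_rfl
  | succ m _ ih => exact (choose_anti n m).trans ih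

theorem bn_anti (n : ℕ) {z z' : ℤ} (h : z.natAbs ≤ z'.natAbs) : bn n z' ≤ bn n z := by
  unfold bn
  have : ((2 * n).choose (n + z'.natAbs) : ℝ) ≤ ((2 * n).choose (n + z.natAbs) : ℝ) := by
    exact_mod_cast choose_anti_le n h
  gcongr

theorem bn_upper (n : ℕ) (z : ℤ) : bn n z ≤ 1 / Real.sqrt (3 * n + 1) :=
  (bn_anti n (by simp)).trans (bn_zero_upper n)

lemma one_sub_exp {x : ℝ} (h0 : 0 ≤ x) (h1 : x ≤ 1 / 2) : Real.exp (-(2 * x)) ≤ 1 - x := by
  have h2 : 1 + 2 * x ≤ Real.exp (2 * x) := by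
    have := Real.add_one_le_exp (2 * x); linarith
  have h3 : 0 < Real.exp (2 * x) := Real.exp_pos _
  rw [Real.exp_neg, inv_le_iff_one_le_mul₀ h3]
  nlinarith

/-- The Gaussian lower bound for the ratio to the central coefficient. -/
theorem choose_lower (n : ℕ) (hn : 1 ≤ n) : ∀ z : ℕ, 3 * z ≤ n + 2 →
    (n.centralBinom : ℝ) * Real.exp (-(2 * (z : ℝ) ^ 2 / n)) ≤ ((2 * n).choose (n + z) : ℝ) := by
  intro z
  induction z with
  | zero =>
    intro _
    rw [Nat.centralBinom_eq_two_mul_choose]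
    simp
  | succ z ih =>
    intro hz
    have hz' : 3 * z ≤ n + 2 := by omega
    have ih' := ih hz'
    have hs := choose_step n z
    have hn0 : (0 : ℝ) < n := by exact_mod_cast hn
    have hpos : (0 : ℝ) < (n : ℝ) + z + 1 := by positivity
    set x : ℝ := (2 * z + 1) / (n + z + 1) with hx
    have hx0 : 0 ≤ x := by positivity
    have hzr : (3 : ℝ) * (z + 1) ≤ n + 2 := by exact_mod_cast hz
    have hx1 : x ≤ 1 / 2 := by
      rw [hx, div_le_iff₀ hpos]; linarith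
    have e : ((2 * n).choose (n + (z + 1)) : ℝ) = (1 - x) * ((2 * n).choose (n + z) : ℝ) := by
      have h1x : 1 - x = (n - z) / (n + z + 1) := by
        rw [hx]; field_simp; ring
      rw [h1x, div_mul_eq_mul_div, eq_div_iff hpos.ne', ← hs]
      ring
    have hx2 : x ≤ (2 * z + 1) / n := by
      rw [hx]
      exact div_le_div_of_nonneg_left (by positivity) hn0 (by linarith [Nat.cast_nonneg (α := ℝ) z])
    have h4 : Real.exp (-(2 * ((z + 1 : ℕ) : ℝ) ^ 2 / n)) ≤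
        Real.exp (-(2 * x)) * Real.exp (-(2 * (z : ℝ) ^ 2 / n)) := by
      rw [← Real.exp_add]
      refine Real.exp_le_exp.2 ?_
      have h5 : 2 * ((z + 1 : ℕ) : ℝ) ^ 2 / n = 2 * ((2 * z + 1) / n) + 2 * (z : ℝ) ^ 2 / n := by
        push_cast; field_simp; ring
      rw [h5]
      linarith
    have hc : (0 : ℝ) ≤ n.centralBinom := by positivity
    rw [e]
    calc (n.centralBinom : ℝ) * Real.exp (-(2 * ((z + 1 : ℕ) : ℝ) ^ 2 / n))
        ≤ (n.centralBinom : ℝ) * (Real.exp (-(2 * x)) * Real.exp (-(2 * (z : ℝ) ^ 2 / n))) :=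
          mul_le_mul_of_nonneg_left h4 hc
      _ = Real.exp (-(2 * x)) * ((n.centralBinom : ℝ) * Real.exp (-(2 * (z : ℝ) ^ 2 / n))) := by
          ring
      _ ≤ (1 - x) * ((2 * n).choose (n + z) : ℝ) :=
          mul_le_mul (one_sub_exp hx0 hx1) ih' (by positivity) (by linarith)

theorem bn_lower (n : ℕ) (hn : 1 ≤ n) (z : ℤ) (hz : 3 * z.natAbs ≤ n + 2) :
    Real.exp (-(2 * (z : ℝ) ^ 2 / n)) / (2 * Real.sqrt n) ≤ bn n z := by
  have h := choose_lower n hn z.natAbs hz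
  have hs : 0 < Real.sqrt n := Real.sqrt_pos.2 (by exact_mod_cast hn)
  have hz2 : ((z.natAbs : ℕ) : ℝ) ^ 2 = (z : ℝ) ^ 2 := by
    rw [Nat.cast_natAbs, Int.cast_abs, sq_abs]
  rw [hz2] at h
  have h4 := four_pow_le n hn
  unfold bn
  rw [div_le_div_iff₀ (by positivity) (by positivity)]
  have he : 0 < Real.exp (-(2 * (z : ℝ) ^ 2 / n)) := Real.exp_pos _
  calc Real.exp (-(2 * (z : ℝ) ^ 2 / n)) * 4 ^ n
      ≤ Real.exp (-(2 * (z : ℝ) ^ 2 / n)) * (2 * Real.sqrt n * (n.centralBinom : ℝ)) :=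
        mul_le_mul_of_nonneg_left h4 he.le
    _ = (n.centralBinom : ℝ) * Real.exp (-(2 * (z : ℝ) ^ 2 / n)) * (2 * Real.sqrt n) := by ring
    _ ≤ ((2 * n).choose (n + z.natAbs) : ℝ) * (2 * Real.sqrt n) :=
        mul_le_mul_of_nonneg_right h (by positivity)

/-- Uniform lower bound in the range `|z| <= K sqrt n`. -/
theorem bn_lower_K (n : ℕ) (K : ℝ) (hn : 1 ≤ n) (hK : 9 * K ^ 2 ≤ n) (z : ℤ)
    (hz : (z : ℝ) ^ 2 ≤ K ^ 2 * n) :
    Real.exp (-(2 * K ^ 2)) / (2 * Real.sqrt n) ≤ bn n z := by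
  have hn0 : (0 : ℝ) < n := by exact_mod_cast hn
  have hs : 0 < Real.sqrt n := Real.sqrt_pos.2 hn0
  have h1 : 3 * z.natAbs ≤ n + 2 := by
    have h2 : (3 * (z.natAbs : ℝ)) ^ 2 ≤ (n : ℝ) ^ 2 := by
      have : ((z.natAbs : ℕ) : ℝ) ^ 2 = (z : ℝ) ^ 2 := by
        rw [Nat.cast_natAbs, Int.cast_abs, sq_abs]
      calc (3 * (z.natAbs : ℝ)) ^ 2 = 9 * (z : ℝ) ^ 2 := by rw [mul_pow, this]; norm_num
        _ ≤ 9 * (K ^ 2 * n) := by linarith
        _ = 9 * K ^ 2 * n := by ring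
        _ ≤ n * n := mul_le_mul_of_nonneg_right hK hn0.le
        _ = (n : ℝ) ^ 2 := by ring
    have h3 : (3 * (z.natAbs : ℝ)) ≤ n := le_of_sq_le_sq h2 hn0.le
    have h4 : 3 * z.natAbs ≤ n := by exact_mod_cast h3
    omega
  refine le_trans ?_ (bn_lower n hn z h1)
  gcongr
  rw [div_le_iff₀ hn0]
  linarith

end H88GK
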