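import Pool.Agent.H15.LE.Base
import Pool.Agent.H88.GK.Bin

/-!
PROJECT LE, BLOCK G (by helper60). The `n`-step lazy walk with independent coordinates, `pz d n x = prod_j bn n (x j)`:
its transform is `prod_j ((1 + cos k_j) / 2)^n`, total mass one, Gaussian lower bound.
-/

namespace H88GK

open H5DF H95LBD H95LE H15LE MeasureTheory

variable {d : ℕ}

/-- The law of the `n`-step lazy walk. -/
noncomputable def pz (d n : ℕ) (x : V d) : ℝ := ∏ j, bn n (x j)

lemma pz_nonneg (n : ℕ) (x : V d) : 0 ≤ pz d n x :=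
  Finset.prod_nonneg fun j _ => bn_nonneg n (x j)

lemma pz_neg (n : ℕ) (x : V d) : pz d n (-x) = pz d n x := by
  unfold pz
  exact Finset.prod_congr rfl fun j _ => bn_neg n (x j)

/-- The support box. -/
noncomputable def bx (d n : ℕ) : Finset (V d) := Fintype.piFinset fun _ => Finset.Icc (-(n : ℤ)) n

lemma pz_support (n : ℕ) (x : V d) (hx : x ∉ bx d n) : pz d n x = 0 := by
  unfold bx at hx
  rw [Fintype.mem_piFinset] at hx
  push Not at hx
  obtain ⟨j, hj⟩ := hx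
  unfold pz
  refine Finset.prod_eq_zero (Finset.mem_univ j) (bn_of_lt ?_)
  rw [Finset.mem_Icc] at hj
  omega

lemma pz_summable (n : ℕ) : Summable (pz d n) :=
  summable_of_ne_finset_zero (s := bx d n) fun x hx => pz_support n x hx

lemma exp_zpow (k : ℝ) (z : ℤ) :
    Complex.exp (((k * (z : ℝ) : ℝ) : ℂ) * Complex.I) = Complex.exp ((k : ℂ) * Complex.I) ^ z := by
  rw [← Complex.exp_int_mul]
  congr 1
  push_cast
  ring

lemma bn_shift (n m : ℕ) (hm : m ≤ 2 * n) :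
    bn n ((m : ℤ) - n) = ((2 * n).choose m : ℝ) / 4 ^ n := by
  unfold bn
  rcases le_total n m with h | h
  · have : n + ((m : ℤ) - n).natAbs = m := by omega
    rw [this]
  · have : n + ((m : ℤ) - n).natAbs = 2 * n - m := by omega
    rw [this, Nat.choose_symm hm]

theorem bn_char (n : ℕ) (k : ℝ) :
    ∑ z ∈ Finset.Icc (-(n : ℤ)) n, (bn n z : ℂ) * Complex.exp (((k * (z : ℝ) : ℝ) : ℂ) * Complex.I)
      = ((((1 + Real.cos k) / 2) ^ n : ℝ) : ℂ) := by
  set w : ℂ := Complex.exp ((k : ℂ) * Complex.I) with hw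
  have hw0 : w ≠ 0 := Complex.exp_ne_zero _
  have h1 : ∑ z ∈ Finset.Icc (-(n : ℤ)) n,
      (bn n z : ℂ) * Complex.exp (((k * (z : ℝ) : ℝ) : ℂ) * Complex.I) =
      ∑ m ∈ Finset.range (2 * n + 1), (((2 * n).choose m : ℝ) / 4 ^ n : ℂ) * w ^ ((m : ℤ) - n) := by
    refine Finset.sum_nbij' (fun z => (z + n).toNat) (fun m => (m : ℤ) - n) ?_ ?_ ?_ ?_ ?_
    · intro z hz
      rw [Finset.mem_Icc] at hz
      rw [Finset.mem_range]
      omega
    · intro m hm
      rw [Finset.mem_range] at hm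
      rw [Finset.mem_Icc]
      omega
    · intro z hz
      rw [Finset.mem_Icc] at hz
      show (((z + n).toNat : ℕ) : ℤ) - n = z
      omega
    · intro m hm
      rw [Finset.mem_range] at hm
      show ((m : ℤ) - n + n).toNat = m
      omega
    · intro z hz
      rw [Finset.mem_Icc] at hz
      have e : ((((z + n).toNat : ℕ) : ℤ) - n) = z := by omega
      have e2 := bn_shift n (z + n).toNat (by omega)
      rw [e] at e2
      rw [exp_zpow, e2, e]
      push_cast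
      rfl
  rw [h1]
  have h2 : ∀ m ∈ Finset.range (2 * n + 1),
      (((2 * n).choose m : ℝ) / 4 ^ n : ℂ) * w ^ ((m : ℤ) - n) =
      (w ^ m * 1 ^ (2 * n - m) * ((2 * n).choose m : ℂ)) * ((w ^ n)⁻¹ / 4 ^ n) := by
    intro m _
    rw [zpow_sub₀ hw0, zpow_natCast, zpow_natCast, one_pow]
    push_cast
    field_simp
  rw [Finset.sum_congr rfl h2, ← Finset.sum_mul, ← add_pow]
  have h3 : (w + 1) ^ 2 = 4 * (((1 + Real.cos k) / 2 : ℝ) : ℂ) * w := by
    have hc : Complex.cos (k : ℂ) = (w + w⁻¹) / 2 := by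
      rw [Complex.cos, hw, ← Complex.exp_neg]
      congr 3
      ring
    push_cast
    rw [hc]
    field_simp
    ring
  rw [pow_mul, h3, mul_pow, mul_pow]
  push_cast
  field_simp

theorem ft_pz (n : ℕ) (k : Fin d → ℝ) :
    ft (pz d n) k = ((∏ j, ((1 + Real.cos (k j)) / 2) ^ n : ℝ) : ℂ) := by
  unfold ft
  rw [tsum_eq_sum (s := bx d n)
    (fun x hx => by rw [pz_support n x hx, Complex.ofReal_zero, zero_mul])]
  have h1 : ∀ x : V d, (pz d n x : ℂ) * ch k x =
      ∏ j, (bn n (x j) : ℂ) * Complex.exp (((k j * (x j : ℝ) : ℝ) : ℂ) * Complex.I) := by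
    intro x
    unfold pz ch
    push_cast
    rw [← Finset.prod_mul_distrib]
  rw [Finset.sum_congr rfl fun x _ => h1 x]
  unfold bx
  rw [← Finset.prod_univ_sum (fun _ => Finset.Icc (-(n : ℤ)) n)
    (fun j z => (bn n z : ℂ) * Complex.exp (((k j * (z : ℝ) : ℝ) : ℂ) * Complex.I))]
  rw [Complex.ofReal_prod]
  exact Finset.prod_congr rfl fun j _ => bn_char n (k j)

theorem pz_sum (n : ℕ) : ∑' x, pz d n x = 1 := by
  have h := ft_pz (d := d) n 0
  unfold ft at h
  have e : ∀ x : V d, (pz d n x : ℂ) * ch 0 x = ((pz d n x : ℝ) : ℂ) := by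
    intro x; rw [ch_zero_left, mul_one]
  simp only [e] at h
  rw [← Complex.ofReal_tsum] at h
  have h2 : (∑' x, pz d n x) = ∏ j : Fin d, ((1 + Real.cos ((0 : Fin d → ℝ) j)) / 2) ^ n := by
    exact_mod_cast h
  rw [h2]
  simp

/-- Gaussian lower bound. -/
theorem pz_lower (n : ℕ) (hn : 1 ≤ n) (x : V d) (hx : ∀ j, 3 * (x j).natAbs ≤ n + 2) :
    Real.exp (-(2 * (∑ j, (x j : ℝ) ^ 2) / n)) / (2 * Real.sqrt n) ^ d ≤ pz d n x := by
  have h : ∏ j : Fin d, (Real.exp (-(2 * (x j : ℝ) ^ 2 / n)) / (2 * Real.sqrt n)) ≤ pz d n x :=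
    Finset.prod_le_prod (fun j _ => by positivity) fun j _ => bn_lower n hn (x j) (hx j)
  rw [Finset.prod_div_distrib, ← Real.exp_sum, Finset.prod_const, Finset.card_univ,
    Fintype.card_fin] at h
  have e : ∑ j : Fin d, -(2 * (x j : ℝ) ^ 2 / n) = -(2 * (∑ j, (x j : ℝ) ^ 2) / n) := by
    rw [Finset.sum_neg_distrib, Finset.mul_sum, Finset.sum_div]
  rw [e] at h
  exact h

theorem pz_lower_K (n : ℕ) (K : ℝ) (hn : 1 ≤ n) (hK : 9 * K ^ 2 ≤ n) (x : V d)
    (hx : ∀ j, (x j : ℝ) ^ 2 ≤ K ^ 2 * n) :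
    (Real.exp (-(2 * K ^ 2)) / (2 * Real.sqrt n)) ^ d ≤ pz d n x := by
  have h : ∏ _j : Fin d, (Real.exp (-(2 * K ^ 2)) / (2 * Real.sqrt n)) ≤ pz d n x :=
    Finset.prod_le_prod (fun j _ => by positivity) fun j _ => bn_lower_K n K hn hK (x j) (hx j)
  rwa [Finset.prod_const, Finset.card_univ, Fintype.card_fin] at h

theorem pz_upper (n : ℕ) (x : V d) : pz d n x ≤ (1 / Real.sqrt (3 * n + 1)) ^ d := by
  have h : pz d n x ≤ ∏ _j : Fin d, (1 / Real.sqrt (3 * n + 1)) :=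
    Finset.prod_le_prod (fun j _ => bn_nonneg n _) fun j _ => bn_upper n (x j)
  rwa [Finset.prod_const, Finset.card_univ, Fintype.card_fin] at h

end H88GK
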