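import Pool.Agent.H88.GK.Def
import Pool.Agent.H88.GK.Lazy
import Pool.Agent.H15.LE.Asm
import Pool.Agent.H15.LE.Intg
import Pool.Agent.H15.LQ.Tay

/-!
PROJECT LE, block G, GK-Cmp (helper15). Comparison of the two-point function with the Green function of the lazy walk.

PROOF. `t_k = x_k / N_k`, `N_k = 1 - lam (1 - uu k) x_k`; `eps := 1 - lam x_0 = x_0/chi`,
`kap := (2/d) (lam x_0 + lam d s)`, `s = sum X(x) x_1^2`, `H_k := eps + kap (1 - ee k)`. Taylor (`H15/LQ/Tay.lean`):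
`|H_k - N_k| <= C uu^2`; `N_k >= uu/4`, `H_k >= kap uu/2`. So `|x_k/N_k - x_0/H_k| <= C`;
`a := x_0/(eps + kap)`, `m := kap/(eps + kap)`, `x_0/H_k = a/(1 - m ee k)`, and the tail
`a (m ee)^N/(1 - m ee) <= a m^N/(1-m) <= 1` for `N >= N0`.
-/

namespace H88GK

open H5DF H95LBD H95LE H15LE MeasureTheory

variable {d : ℕ}

/-- Numbers: the comparison at one point. -/
lemma cmp_num {D M lam x0 xk eps kap s S u e N H : ℝ} (hD : 1 ≤ D) (hM : 0 ≤ M)
    (hl1 : 1 / 2 ≤ lam) (hl2 : lam ≤ 12 / 11) (hx0 : |x0 - 1| ≤ 1 / 12)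
    (hlx : lam * x0 < 1) (hs : |s| ≤ 1 / (12 * D)) (heps : eps = 1 - lam * x0)
    (hkap : kap = 2 / D * (lam * x0 + lam * D * s))
    (hu0 : 0 < u) (hS : S ≤ 5 * D * u) (hS0 : 0 ≤ S)
    (hE1 : |x0 - xk - S * s / 2| ≤ S ^ 2 / 4 * M) (hE2 : |u - S / (2 * D)| ≤ S ^ 2 / (4 * D))
    (hE3 : |1 - e - S / 4| ≤ S ^ 2 / 8) (hE4 : u / 2 ≤ 1 - e)
    (hdiff : |x0 - xk| ≤ S / (24 * D)) (hN : N = 1 - lam * (1 - u) * xk) (hN4 : u / 4 ≤ N)
    (hH : H = eps + kap * (1 - e)) :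
    |xk / N - x0 / H| ≤ 1 + 300 * D ^ 3 * (1 + M) := by
  obtain ⟨hx1, hx2⟩ := abs_le.1 hx0
  obtain ⟨hs1, hs2⟩ := abs_le.1 hs
  have hD0 : 0 < D := by linarith
  have hDs1 : -(1 / 12) ≤ D * s := by
    have : D * -(1 / (12 * D)) ≤ D * s := mul_le_mul_of_nonneg_left hs1 hD0.le
    have e1 : D * -(1 / (12 * D)) = -(1 / 12) := by field_simp
    linarith
  have hDs2 : D * s ≤ 1 / 12 := by
    have : D * s ≤ D * (1 / (12 * D)) := mul_le_mul_of_nonneg_left hs2 hD0.le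
    have e1 : D * (1 / (12 * D)) = 1 / 12 := by field_simp
    linarith
  have hl0 : 0 < lam := by linarith
  have hlDs1 : -(1 / 11) ≤ lam * D * s := by nlinarith
  have hlDs2 : lam * D * s ≤ 1 / 11 := by nlinarith
  have hlx1 : 11 / 24 ≤ lam * x0 := by nlinarith
  -- the constant `kap`
  have hkD : kap * D = 2 * (lam * x0 + lam * D * s) := by rw [hkap]; field_simp
  have hkD1 : 97 / 132 ≤ kap * D := by rw [hkD]; linarith
  have hkD2 : kap * D ≤ 24 / 11 := by rw [hkD]; linarith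
  have hk0 : 0 < kap := by
    by_contra h
    push Not at h
    nlinarith
  have hk2 : kap ≤ 24 / 11 := by nlinarith
  have heps0 : 0 < eps := by rw [heps]; linarith
  have hN0 : 0 < N := by linarith
  have hH1 : kap * (u / 2) ≤ H := by
    rw [hH]
    have := mul_le_mul_of_nonneg_left hE4 hk0.le
    linarith
  have hH0 : 0 < H := lt_of_lt_of_le (by positivity) hH1
  -- `H - N`
  have hS2 : S ^ 2 ≤ 25 * D ^ 2 * u ^ 2 := by
    calc S ^ 2 ≤ (5 * D * u) ^ 2 := pow_le_pow_left₀ hS0 hS 2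
      _ = _ := by ring
  have hd2 : |x0 - xk| ≤ 5 / 24 * u := by
    refine hdiff.trans ?_
    rw [div_le_iff₀ (by positivity)]
    linarith
  have eHN : H - N = kap * (1 - e - S / 4) - lam * (x0 - xk - S * s / 2) -
      lam * x0 * (u - S / (2 * D)) + lam * u * (x0 - xk) := by
    have e1 : kap * (S / 4) = lam * (S * s / 2) + lam * x0 * (S / (2 * D)) := by
      rw [hkap]
      field_simp
      ring
    rw [hH, hN, heps]
    linear_combination e1
  have hHN : |H - N| ≤ 25 * D ^ 2 * (1 + M) * u ^ 2 := by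
    have a1 : |kap * (1 - e - S / 4)| ≤ 24 / 11 * (S ^ 2 / 8) := by
      rw [abs_mul, abs_of_pos hk0]
      exact mul_le_mul hk2 hE3 (abs_nonneg _) (by norm_num)
    have a2 : |lam * (x0 - xk - S * s / 2)| ≤ 12 / 11 * (S ^ 2 / 4 * M) := by
      rw [abs_mul, abs_of_pos hl0]
      exact mul_le_mul hl2 hE1 (abs_nonneg _) (by norm_num)
    have a3 : |lam * x0 * (u - S / (2 * D))| ≤ 1 * (S ^ 2 / 4) := by
      rw [abs_mul, abs_of_pos (by linarith : 0 < lam * x0)]
      refine mul_le_mul hlx.le (hE2.trans ?_) (abs_nonneg _) (by norm_num)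
      exact div_le_div_of_nonneg_left (by positivity) (by norm_num) (by linarith)
    have a4 : |lam * u * (x0 - xk)| ≤ 12 / 11 * u * (5 / 24 * u) := by
      rw [abs_mul, abs_of_pos (by positivity : 0 < lam * u)]
      refine mul_le_mul (mul_le_mul_of_nonneg_right hl2 hu0.le) hd2 (abs_nonneg _) (by positivity)
    have t1 : |H - N| ≤ |kap * (1 - e - S / 4)| + |lam * (x0 - xk - S * s / 2)| +
        |lam * x0 * (u - S / (2 * D))| + |lam * u * (x0 - xk)| := by
      rw [eHN]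
      have b1 := abs_add_le (kap * (1 - e - S / 4) - lam * (x0 - xk - S * s / 2) -
        lam * x0 * (u - S / (2 * D))) (lam * u * (x0 - xk))
      have b2 := abs_sub (kap * (1 - e - S / 4) - lam * (x0 - xk - S * s / 2))
        (lam * x0 * (u - S / (2 * D)))
      have b3 := abs_sub (kap * (1 - e - S / 4)) (lam * (x0 - xk - S * s / 2))
      linarith
    have t2 : S ^ 2 * M ≤ 25 * D ^ 2 * u ^ 2 * M := mul_le_mul_of_nonneg_right hS2 hM
    have t3 : u ^ 2 ≤ D ^ 2 * u ^ 2 := by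
      have : 1 ≤ D ^ 2 := by nlinarith
      nlinarith [sq_nonneg u]
    have t4 : 0 ≤ D ^ 2 * u ^ 2 := by positivity
    have t5 : 0 ≤ D ^ 2 * u ^ 2 * M := by positivity
    nlinarith
  -- conclusion
  have e5 : xk / N - x0 / H = (xk - x0) / N + x0 * (H - N) / (N * H) := by
    field_simp
    ring
  have b1 : |(xk - x0) / N| ≤ 1 := by
    rw [abs_div, abs_of_pos hN0, abs_sub_comm, div_le_one hN0]
    linarith
  have b2 : |x0 * (H - N) / (N * H)| ≤ 300 * D ^ 3 * (1 + M) := by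
    rw [abs_div, abs_of_pos (by positivity : 0 < N * H), abs_mul,
      abs_of_pos (by linarith : 0 < x0), div_le_iff₀ (by positivity)]
    have c1 : u / 4 * (kap * (u / 2)) ≤ N * H := mul_le_mul hN4 hH1 (by positivity) hN0.le
    have c2 : x0 * |H - N| ≤ 13 / 12 * (25 * D ^ 2 * (1 + M) * u ^ 2) :=
      mul_le_mul (by linarith) hHN (abs_nonneg _) (by norm_num)
    have c3 : 13 / 12 * (25 * D ^ 2 * (1 + M) * u ^ 2) ≤
        300 * D ^ 3 * (1 + M) * (u / 4 * (kap * (u / 2))) := by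
      have c4 : 300 * D ^ 3 * (1 + M) * (u / 4 * (kap * (u / 2))) =
          (300 / 8 * (kap * D)) * (D ^ 2 * (1 + M) * u ^ 2) := by ring
      have c5 : 13 / 12 * (25 * D ^ 2 * (1 + M) * u ^ 2) =
          (325 / 12) * (D ^ 2 * (1 + M) * u ^ 2) := by ring
      rw [c4, c5]
      refine mul_le_mul_of_nonneg_right ?_ (by positivity)
      linarith
    calc x0 * |H - N| ≤ _ := c2
      _ ≤ _ := c3
      _ ≤ _ := mul_le_mul_of_nonneg_left c1 (by positivity)
  rw [e5]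
  exact (abs_add_le _ _).trans (by linarith)

/-- Numbers: the tail of the geometric series. -/
lemma cmp_tail {a m : ℝ} (ha : 0 ≤ a) (hm0 : 0 ≤ m) (hm1 : m < 1) :
    ∃ N0 : ℕ, ∀ N, N0 ≤ N → ∀ e : ℝ, 0 ≤ e → e ≤ 1 →
      |a / (1 - m * e) - a * ∑ n ∈ Finset.range N, m ^ n * e ^ n| ≤ 1 := by
  have h1 : Filter.Tendsto (fun N : ℕ => a / (1 - m) * m ^ N) Filter.atTop (nhds (a / (1 - m) * 0)) :=
    (tendsto_pow_atTop_nhds_zero_of_lt_one hm0 hm1).const_mul _
  rw [mul_zero] at h1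
  obtain ⟨N0, hN0⟩ := Filter.eventually_atTop.1 (h1.eventually (gt_mem_nhds zero_lt_one))
  refine ⟨N0, fun N hN e he0 he1 => ?_⟩
  have hme : m * e ≤ m := mul_le_of_le_one_right hm0 he1
  have hme0 : 0 ≤ m * e := mul_nonneg hm0 he0
  have h2 : (0 : ℝ) < 1 - m * e := by linarith
  have h3 : ∑ n ∈ Finset.range N, m ^ n * e ^ n = (1 - (m * e) ^ N) / (1 - m * e) := by
    have : ∀ n, m ^ n * e ^ n = (m * e) ^ n := fun n => (mul_pow m e n).symm
    simp only [this]
    rw [geom_sum_eq (by linarith : m * e ≠ 1)]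
    rw [← neg_div_neg_eq]
    congr 1 <;> ring
  have h4 : a / (1 - m * e) - a * ∑ n ∈ Finset.range N, m ^ n * e ^ n =
      a * (m * e) ^ N / (1 - m * e) := by
    rw [h3]; field_simp; ring
  rw [h4, abs_of_nonneg (by positivity)]
  have h5 := hN0 N hN
  calc a * (m * e) ^ N / (1 - m * e) ≤ a * m ^ N / (1 - m) := by
        have h6 : (m * e) ^ N ≤ m ^ N := pow_le_pow_left₀ hme0 hme N
        have h7 : 0 < 1 - m := by linarith
        have h8 : 0 ≤ m ^ N := pow_nonneg hm0 N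
        exact div_le_div₀ (by positivity) (mul_le_mul_of_nonneg_left h6 ha) h7 (by linarith)
    _ = a / (1 - m) * m ^ N := by ring
    _ ≤ 1 := h5.le

lemma cmp_T {p : ℝ} {X : V d → ℝ} (hI : Inp d p X) {k : Fin d → ℝ} (hk : ∀ i, |k i| ≤ Real.pi)
    (hu : 0 < uu k) :
    ft (tr d p) k = (((ft X k).re / (1 - 2 * d * p * (1 - uu k) * (ft X k).re) : ℝ) : ℂ) := by
  have h1 := low hI.d0 hk hI.p0 hI.lam.1 (hI.x_one 0) hI.lam.2 (hI.x_diff k)
  rw [j0_eq hI.d0] at h1
  have h2 : (0 : ℝ) < 1 - 2 * d * p * (1 - uu k) * (ft X k).re := lt_of_lt_of_le (by positivity) h1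
  have h3 := hI.eqT k
  rw [hI.xr0 k, j0_eq hI.d0] at h3
  have h4 : (1 - (2 * d * p * (1 - uu k) : ℝ) * ((ft X k).re : ℂ)) ≠ 0 := by
    intro h
    have : ((1 - 2 * d * p * (1 - uu k) * (ft X k).re : ℝ) : ℂ) = 0 := by
      push_cast at h ⊢
      exact h
    exact h2.ne' (by exact_mod_cast this)
  push_cast at h3 h4 ⊢
  rw [eq_div_iff h4]
  linear_combination h3

theorem cmp (d : ℕ) (hd : 0 < d) (M : ℝ) (hM : 0 ≤ M) : ∃ C : ℝ, 0 ≤ C ∧
    ∀ (p : ℝ) (X : V d → ℝ), Inp d p X → 1 / 2 ≤ 2 * d * p →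
      Summable (fun x => (wm 2 x : ℝ) * |X x|) → ∑' x, (wm 2 x : ℝ) * |X x| ≤ M →
      ∃ a m : ℝ, 1 / 5 ≤ a ∧ 0 ≤ m ∧ m < 1 ∧ 1 - m ≤ 2 * d / (∑' x, tr d p x) ∧
        ∃ N0 : ℕ, ∀ N, N0 ≤ N → ∀ᵐ k ∂(mu d),
          ‖ft (tr d p) k - ((a * ∑ n ∈ Finset.range N, m ^ n * ee k ^ n : ℝ) : ℂ)‖ ≤ C := by
  have hd0 : (0 : ℝ) < d := by exact_mod_cast hd
  have hd1 : (1 : ℝ) ≤ d := by exact_mod_cast hd
  refine ⟨2 + 300 * (d : ℝ) ^ 3 * (1 + M), by positivity, ?_⟩
  intro p X hI hp hs4 hM4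
  have hx0 := hI.x_one 0
  obtain ⟨hx1, hx2⟩ := abs_le.1 hx0
  have hlx := hI.lam.2
  have hl2 := hI.lam.1
  have hchi := hI.one_le_chr
  set x0 := (ft X 0).re with hx0def
  set s := sm X ⟨0, hd⟩ with hsdef
  have hs : |s| ≤ 1 / (12 * d) := (sm_abs hI.sX _).trans (hI.sq_X _)
  obtain ⟨hs1, hs2⟩ := abs_le.1 hs
  set lam := 2 * (d : ℝ) * p with hlam
  set eps := 1 - lam * x0 with heps
  set kap := 2 / (d : ℝ) * (lam * x0 + lam * d * s) with hkap
  have hDs1 : -(1 / 12) ≤ d * s := by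
    have : (d : ℝ) * -(1 / (12 * d)) ≤ d * s := mul_le_mul_of_nonneg_left hs1 hd0.le
    have e1 : (d : ℝ) * -(1 / (12 * d)) = -(1 / 12) := by field_simp
    linarith
  have hDs2 : d * s ≤ 1 / 12 := by
    have : (d : ℝ) * s ≤ d * (1 / (12 * d)) := mul_le_mul_of_nonneg_left hs2 hd0.le
    have e1 : (d : ℝ) * (1 / (12 * d)) = 1 / 12 := by field_simp
    linarith
  have hl0 : 0 < lam := by linarith
  have hlDs1 : -(1 / 11) ≤ lam * d * s := by nlinarith
  have hlDs2 : lam * d * s ≤ 1 / 11 := by nlinarith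
  have hlx1 : 11 / 24 ≤ lam * x0 := by nlinarith
  have hkD : kap * d = 2 * (lam * x0 + lam * d * s) := by rw [hkap]; field_simp
  have hkD1 : 97 / 132 ≤ kap * d := by rw [hkD]; linarith
  have hkD2 : kap * d ≤ 24 / 11 := by rw [hkD]; linarith
  have hk0 : 0 < kap := by
    by_contra h
    push Not at h
    nlinarith
  have hk2 : kap ≤ 24 / 11 := by nlinarith
  have heps0 : 0 < eps := by rw [heps]; linarith
  -- `eps * chi = x0`
  have hec : eps * chr d p = x0 := by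
    have h := hI.eqT 0
    rw [ft_zero (tr d p), hI.xr0 0, j0_zero] at h
    have h2 := congrArg Complex.re h
    simp only [Complex.ofReal_re, ← Complex.ofReal_mul, ← Complex.ofReal_add] at h2
    have h3 : chr d p = x0 + x0 * (lam * chr d p) := h2
    rw [heps]
    linear_combination h3
  have hsum0 : 0 < eps + kap := by linarith
  refine ⟨x0 / (eps + kap), kap / (eps + kap), ?_, by positivity, ?_, ?_, ?_⟩
  · rw [div_le_div_iff₀ (by norm_num) hsum0]
    have : eps ≤ 13 / 24 := by rw [heps]; linarith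
    linarith
  · rw [div_lt_one hsum0]; linarith
  · have e1 : 1 - kap / (eps + kap) = eps / (eps + kap) := by field_simp; ring
    have hc : (∑' x, tr d p x) = chr d p := rfl
    rw [e1, hc, div_le_div_iff₀ hsum0 (by linarith)]
    rw [hec]
    nlinarith
  · obtain ⟨N0, hN0⟩ := cmp_tail (a := x0 / (eps + kap)) (m := kap / (eps + kap))
      (div_nonneg (by linarith) hsum0.le) (by positivity)
      (by rw [div_lt_one hsum0]; linarith)
    refine ⟨N0, fun N hN => ?_⟩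
    filter_upwards [mu_ae_cube (d := d), mu_ae_ne hd] with k hk hkne
    have hu := uu_pos hd hk hkne
    have hT := cmp_T hI hk hu
    have hlow := low hI.d0 hk hI.p0 hI.lam.1 (hI.x_one 0) hI.lam.2 (hI.x_diff k)
    rw [j0_eq hI.d0] at hlow
    have hS : (∑ i, k i ^ 2) ≤ 5 * d * uu k := by
      have := sq_le_uu hd hk
      rw [div_le_iff₀ hd0] at this
      linarith
    have hE1 : |x0 - (ft X k).re - (∑ i, k i ^ 2) * s / 2| ≤ (∑ i, k i ^ 2) ^ 2 / 4 * M := by
      have h1 := x_tay hI.sX hs4 hI.xfl k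
      have h2 : ∑ i, k i ^ 2 * sm X i = (∑ i, k i ^ 2) * s := by
        rw [Finset.sum_mul]
        exact Finset.sum_congr rfl fun i _ => by rw [sm_eq hI.xpm i ⟨0, hd⟩]
      rw [h2] at h1
      exact h1.trans (mul_le_mul_of_nonneg_left hM4 (by positivity))
    have hnum := cmp_num (D := d) (M := M) (lam := lam) (x0 := x0) (xk := (ft X k).re)
      (eps := eps) (kap := kap) (s := s) (S := ∑ i, k i ^ 2) (u := uu k) (e := ee k)
      (N := 1 - lam * (1 - uu k) * (ft X k).re) (H := eps + kap * (1 - ee k))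
      hd1 hM hp hl2 hx0 hlx hs rfl rfl hu hS (Finset.sum_nonneg fun i _ => by positivity)
      hE1 (uu_tay hd k) (ee_tay k) (ee_low hd k) (hI.x_diff k) rfl hlow rfl
    have htail := hN0 N hN (ee k) (ee_nonneg k) (ee_le_one k)
    have e2 : x0 / (eps + kap) / (1 - kap / (eps + kap) * ee k) = x0 / (eps + kap * (1 - ee k)) := by
      have h5 : 0 < eps + kap * (1 - ee k) := by
        have := ee_le_one k
        have : 0 ≤ kap * (1 - ee k) := mul_nonneg hk0.le (by linarith)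
        linarith
      have h6 : 1 - kap / (eps + kap) * ee k = (eps + kap * (1 - ee k)) / (eps + kap) := by
        field_simp
        ring
      rw [h6]
      field_simp
    rw [e2] at htail
    rw [hT, ← Complex.ofReal_sub, Complex.norm_real, Real.norm_eq_abs]
    have h7 := abs_sub_le ((ft X k).re / (1 - lam * (1 - uu k) * (ft X k).re))
      (x0 / (eps + kap * (1 - ee k)))
      (x0 / (eps + kap) * ∑ n ∈ Finset.range N, (kap / (eps + kap)) ^ n * ee k ^ n)
    calc _ ≤ _ := h7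
      _ ≤ (1 + 300 * (d : ℝ) ^ 3 * (1 + M)) + 1 := add_le_add hnum htail
      _ = _ := by ring

/-- `tau^ <= 5/(1 - D^)`. -/
theorem ft_tr_bd {p : ℝ} {X : V d → ℝ} (hI : Inp d p X) :
    ∀ᵐ k ∂(mu d), ‖ft (tr d p) k‖ₑ ≤ 5 * (ENNReal.ofReal (uu k))⁻¹ := by
  filter_upwards [mu_ae_cube (d := d), mu_ae_ne hI.d0] with k hk hk0
  have hu := uu_pos hI.d0 hk hk0
  have h := hI.t_le hk hu
  have h5 : (5 : ENNReal) = ENNReal.ofReal 5 := by simp
  rw [h5, ← ENNReal.ofReal_inv_of_pos hu, ← ENNReal.ofReal_mul (by norm_num), ← ofReal_norm]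
  exact ENNReal.ofReal_le_ofReal (h.trans (le_of_eq (div_eq_mul_inv _ _)))

end H88GK
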