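import Pool.Agent.H88.GK.Def
import Pool.Agent.H15.LE.Inv

/-!
PROJECT LE, block G, job GK-H1. The one-dimensional Fejer kernel `h1 r a = |sum_{j<r} e^{ija}|^2 / r`.

PROOF. `h1_le`: the norm of the sum is at most `r`. `int_h1`: `|sum_{j<r} e^{ija}|^2 = sum_{j,l<r} cos((j-l)a)` and
`int cos(na) dnu = [n = 0]` (`nu = (2 pi)^-1 vol` on `(-pi, pi]`). `int_h1_rpow`: `1 - cos a >= (2/pi^2) a^2 >= a^2/5` on `[-pi,pi]`
(e.g. `Real.cos_le_one_sub_mul_cos_sq`/`Real.cos_quadratic_upper_bound`), so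
`(1-cos a)^(-s) <= 5^s |a|^(-2s) <= 2 |a|^(-2s)` for `0 < s <= 1/4` (`5^(1/4) < 1.5`). Where `|a| >= 1/r` the last
factor is `<= r^(2s)`, and `int h1 <= 1`; where `|a| <= 1/r`, `h1 <= r` and `int_{|a|<=1/r} |a|^(-2s) da/(2 pi) =
(1/pi) r^(2s-1)/(1-2s) <= r^(2s-1)`. The sum is `<= 4 r^(2s)`. (`s = 0` is `int_h1`.)
-/

namespace H88GK

open H5DF H95LBD H95LE H15LE MeasureTheory

variable {d : ℕ}

lemma h1_nonneg (r : ℕ) (a : ℝ) : 0 ≤ h1 r a := by
  unfold h1; positivity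

lemma h1_cont (r : ℕ) : Continuous (h1 r) := by
  unfold h1; fun_prop

lemma H1_norm (r : ℕ) (a : ℝ) :
    ‖∑ j ∈ Finset.range r, Complex.exp (((j * a : ℝ) : ℂ) * Complex.I)‖ ≤ r := by
  refine (norm_sum_le _ _).trans ?_
  have h : ∀ j ∈ Finset.range r, ‖Complex.exp (((j * a : ℝ) : ℂ) * Complex.I)‖ = 1 :=
    fun j _ => Complex.norm_exp_ofReal_mul_I _
  rw [Finset.sum_congr rfl h]
  simp

lemma h1_le (r : ℕ) (a : ℝ) : h1 r a ≤ r := by
  unfold h1
  rcases Nat.eq_zero_or_pos r with h | h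
  · subst h
    simp
  · have hr : (0 : ℝ) < r := by exact_mod_cast h
    rw [div_le_iff₀ hr, ← pow_two]
    exact pow_le_pow_left₀ (norm_nonneg _) (H1_norm r a) 2

lemma H1_sq (r : ℕ) (a : ℝ) :
    (((‖∑ j ∈ Finset.range r, Complex.exp (((j * a : ℝ) : ℂ) * Complex.I)‖ ^ 2 : ℝ)) : ℂ) =
      ∑ j ∈ Finset.range r, ∑ l ∈ Finset.range r,
        Complex.exp (((a * (((j : ℤ) - (l : ℤ) : ℤ) : ℝ) : ℝ) : ℂ) * Complex.I) := by
  rw [Complex.ofReal_pow, ← Complex.mul_conj', map_sum, Finset.sum_mul_sum]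
  refine Finset.sum_congr rfl fun j _ => Finset.sum_congr rfl fun l _ => ?_
  rw [← Complex.exp_conj, ← Complex.exp_add]
  congr 1
  simp only [map_mul, Complex.conj_ofReal, Complex.conj_I]
  push_cast
  ring

lemma H1_int (r : ℕ) :
    ∫ a, ‖∑ j ∈ Finset.range r, Complex.exp (((j * a : ℝ) : ℂ) * Complex.I)‖ ^ 2 ∂nu = r := by
  have hi : ∀ n : ℤ, Integrable
      (fun a : ℝ => Complex.exp (((a * (n : ℝ) : ℝ) : ℂ) * Complex.I)) nu := by
    intro n
    refine (integrable_const (1 : ℝ)).mono' ?_ (Filter.Eventually.of_forall fun a => ?_)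
    · exact (by fun_prop : Continuous
        (fun a : ℝ => Complex.exp (((a * (n : ℝ) : ℝ) : ℂ) * Complex.I))).aestronglyMeasurable
    · exact (Complex.norm_exp_ofReal_mul_I _).le
  have h : ((∫ a, ‖∑ j ∈ Finset.range r,
      Complex.exp (((j * a : ℝ) : ℂ) * Complex.I)‖ ^ 2 ∂nu : ℝ) : ℂ) = (r : ℂ) := by
    rw [← integral_complex_ofReal]
    simp only [H1_sq]
    rw [integral_finsetSum _ fun j _ => integrable_finsetSum _ fun l _ => hi _]
    have h2 : ∀ j ∈ Finset.range r, ∫ a, ∑ l ∈ Finset.range r,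
        Complex.exp (((a * (((j : ℤ) - (l : ℤ) : ℤ) : ℝ) : ℝ) : ℂ) * Complex.I) ∂nu = 1 := by
      intro j hj
      rw [integral_finsetSum _ fun l _ => hi _]
      simp only [Inv_one]
      rw [Finset.sum_eq_single_of_mem j hj]
      · simp
      · intro l _ hl
        rw [if_neg]
        omega
    rw [Finset.sum_congr rfl h2]
    simp
  exact_mod_cast h

lemma H1_integrable (r : ℕ) : Integrable (h1 r) nu := by
  refine (integrable_const (r : ℝ)).mono' (h1_cont r).aestronglyMeasurable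
    (Filter.Eventually.of_forall fun a => ?_)
  rw [Real.norm_of_nonneg (h1_nonneg r a)]
  exact h1_le r a

theorem int_h1 (r : ℕ) : ∫⁻ a, ENNReal.ofReal (h1 r a) ∂nu ≤ 1 := by
  rw [← ofReal_integral_eq_lintegral_ofReal (H1_integrable r)
    (Filter.Eventually.of_forall fun a => h1_nonneg r a)]
  have h : ∫ a, h1 r a ∂nu = r / r := by
    unfold h1
    rw [integral_div, H1_int]
  rw [h, ← ENNReal.ofReal_one]
  exact ENNReal.ofReal_le_ofReal (div_self_le_one _)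

lemma H1_half {t c : ℝ} (ht : t ≤ 1 / 2) (hc : 0 < c) :
    ∫⁻ a in Set.Ioc 0 c, ENNReal.ofReal (|a| ^ (-t)) ≤ ENNReal.ofReal (2 * c ^ (1 - t)) := by
  have h1 : ∫⁻ a in Set.Ioc 0 c, ENNReal.ofReal (|a| ^ (-t)) =
      ∫⁻ a in Set.Ioc 0 c, ENNReal.ofReal (a ^ (-t)) := by
    refine setLIntegral_congr_fun measurableSet_Ioc ?_
    intro a ha
    simp only [abs_of_pos ha.1]
  have h2 : IntervalIntegrable (fun x : ℝ => x ^ (-t)) volume 0 c :=
    intervalIntegral.intervalIntegrable_rpow' (by linarith)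
  rw [h1, ← ofReal_integral_eq_lintegral_ofReal]
  · rw [← intervalIntegral.integral_of_le hc.le, integral_rpow (Or.inl (by linarith))]
    apply ENNReal.ofReal_le_ofReal
    rw [Real.zero_rpow (by linarith), sub_zero, div_le_iff₀ (by linarith)]
    have h3 : -t + 1 = 1 - t := by ring
    rw [h3]
    have h4 : 0 < c ^ (1 - t) := Real.rpow_pos_of_pos hc _
    nlinarith
  · exact (intervalIntegrable_iff_integrableOn_Ioc_of_le hc.le).1 h2
  · filter_upwards [ae_restrict_mem measurableSet_Ioc] with a ha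
    exact Real.rpow_nonneg ha.1.le _

lemma H1_full {t c : ℝ} (ht : t ≤ 1 / 2) (hc : 0 < c) :
    ∫⁻ a in {a : ℝ | |a| ≤ c}, ENNReal.ofReal (|a| ^ (-t)) ≤ ENNReal.ofReal (4 * c ^ (1 - t)) := by
  have hm : Measurable fun a : ℝ => ENNReal.ofReal (|a| ^ (-t)) := by fun_prop
  have h1 : {a : ℝ | |a| ≤ c} ⊆ {0} ∪ (Set.Ioc 0 c ∪ (fun a : ℝ => -a) ⁻¹' Set.Ioc 0 c) := by
    intro a ha
    simp only [Set.mem_ofPred_eq, abs_le] at ha
    simp only [Set.mem_union, Set.mem_singleton_iff, Set.mem_Ioc, Set.mem_preimage]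
    rcases lt_trichotomy a 0 with h | h | h
    · right; right; constructor <;> linarith
    · left; exact h
    · right; left; exact ⟨h, ha.2⟩
  have h2 : ∫⁻ a in (fun a : ℝ => -a) ⁻¹' Set.Ioc 0 c, ENNReal.ofReal (|a| ^ (-t)) =
      ∫⁻ a in Set.Ioc 0 c, ENNReal.ofReal (|a| ^ (-t)) := by
    rw [← (Measure.measurePreserving_neg (volume : Measure ℝ)).setLIntegral_comp_preimage
      measurableSet_Ioc hm]
    simp only [abs_neg]
  have h3 := H1_half ht hc
  have h4 : 0 < c ^ (1 - t) := Real.rpow_pos_of_pos hc _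
  calc ∫⁻ a in {a : ℝ | |a| ≤ c}, ENNReal.ofReal (|a| ^ (-t))
      ≤ ∫⁻ a in {0} ∪ (Set.Ioc 0 c ∪ (fun a : ℝ => -a) ⁻¹' Set.Ioc 0 c),
          ENNReal.ofReal (|a| ^ (-t)) := lintegral_mono_set h1
    _ ≤ (∫⁻ a in {(0 : ℝ)}, ENNReal.ofReal (|a| ^ (-t))) +
        ∫⁻ a in Set.Ioc 0 c ∪ (fun a : ℝ => -a) ⁻¹' Set.Ioc 0 c,
          ENNReal.ofReal (|a| ^ (-t)) := lintegral_union_le _ _ _
    _ ≤ 0 + (ENNReal.ofReal (2 * c ^ (1 - t)) + ENNReal.ofReal (2 * c ^ (1 - t))) := by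
        refine add_le_add ?_ ?_
        · rw [setLIntegral_measure_zero _ _ (by simp)]
        · refine (lintegral_union_le _ _ _).trans (add_le_add h3 ?_)
          rw [h2]
          exact h3
    _ = ENNReal.ofReal (4 * c ^ (1 - t)) := by
        rw [zero_add, ← ENNReal.ofReal_add (by positivity) (by positivity)]
        congr 1
        ring

lemma H1_cos {a : ℝ} (ha : |a| ≤ Real.pi) : a ^ 2 / 5 ≤ 1 - Real.cos a := by
  have h1 := Real.cos_le_one_sub_mul_cos_sq ha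
  have h2 := Real.pi_lt_d2
  have h3 := Real.pi_pos
  have h4 : Real.pi ^ 2 ≤ 10 := by nlinarith
  have h5 : 1 / 5 ≤ 2 / Real.pi ^ 2 := by
    rw [div_le_div_iff₀ (by norm_num) (by positivity)]
    linarith
  have h6 : 0 ≤ a ^ 2 := sq_nonneg a
  nlinarith

/-- pointwise bound -/
lemma H1_pt {a c s : ℝ} (hc : 0 < c) (hca : c ≤ |a|) (ha : |a| ≤ Real.pi) (hs0 : 0 ≤ s)
    (hs : s ≤ 1 / 4) :
    (ENNReal.ofReal (1 - Real.cos a)) ^ (-s) ≤ ENNReal.ofReal (2 * c ^ (-(2 * s))) := by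
  have h1 : c ^ 2 / 5 ≤ 1 - Real.cos a := by
    refine le_trans ?_ (H1_cos ha)
    rw [← sq_abs a]
    gcongr
  have h2 : 0 < c ^ 2 / 5 := by positivity
  have h3 : (ENNReal.ofReal (1 - Real.cos a)) ^ (-s) ≤ (ENNReal.ofReal (c ^ 2 / 5)) ^ (-s) := by
    rw [ENNReal.rpow_neg, ENNReal.rpow_neg, ENNReal.inv_le_inv]
    exact ENNReal.rpow_le_rpow (ENNReal.ofReal_le_ofReal h1) hs0
  refine h3.trans ?_
  rw [ENNReal.ofReal_rpow_of_pos h2]
  apply ENNReal.ofReal_le_ofReal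
  rw [Real.div_rpow (by positivity) (by norm_num), ← Real.rpow_natCast c 2, ← Real.rpow_mul hc.le]
  have h4 : ((2 : ℕ) : ℝ) * -s = -(2 * s) := by push_cast; ring
  rw [h4]
  have h5 : 0 < c ^ (-(2 * s)) := Real.rpow_pos_of_pos hc _
  have h6 : (5 : ℝ) ^ (-s) = ((5 : ℝ) ^ s)⁻¹ := Real.rpow_neg (by norm_num) s
  rw [h6, div_inv_eq_mul, mul_comm]
  have h7 : (5 : ℝ) ^ s ≤ 2 := by
    calc (5 : ℝ) ^ s ≤ (5 : ℝ) ^ (1 / 4 : ℝ) := Real.rpow_le_rpow_of_exponent_le (by norm_num) hs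
      _ ≤ (16 : ℝ) ^ (1 / 4 : ℝ) := Real.rpow_le_rpow (by norm_num) (by norm_num) (by norm_num)
      _ = 2 := by
          rw [show (16 : ℝ) = 2 ^ (4 : ℝ) by norm_num, ← Real.rpow_mul (by norm_num)]
          norm_num
  gcongr

lemma H1_ae : ∀ᵐ a ∂nu, |a| ≤ Real.pi ∧ a ≠ 0 := by
  unfold nu
  refine Measure.ae_smul_measure ?_ _
  have h0 : ∀ᵐ a ∂(volume : Measure ℝ), a ≠ 0 := by
    rw [ae_iff]
    simp
  filter_upwards [ae_restrict_mem measurableSet_Ioc, ae_restrict_of_ae h0] with a ha h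
  exact ⟨abs_le.2 ⟨ha.1.le, ha.2⟩, h⟩

theorem int_h1_rpow (r : ℕ) (hr : 1 ≤ r) (s : ℝ) (hs0 : 0 ≤ s) (hs : s ≤ 1 / 4) :
    ∫⁻ a, ENNReal.ofReal (h1 r a) * (ENNReal.ofReal (1 - Real.cos a)) ^ (-s) ∂nu ≤
      8 * (r : ENNReal) ^ (2 * s) := by
  have hr' : (0 : ℝ) < r := by exact_mod_cast hr
  set c : ℝ := 1 / r with hc
  have hc0 : 0 < c := by positivity
  have hcr : c ^ (-(2 * s)) = (r : ℝ) ^ (2 * s) := by
    rw [hc, one_div, Real.inv_rpow hr'.le, ← Real.rpow_neg hr'.le, neg_neg]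
  have hrr : (r : ENNReal) ^ (2 * s) = ENNReal.ofReal ((r : ℝ) ^ (2 * s)) := by
    rw [← ENNReal.ofReal_natCast, ENNReal.ofReal_rpow_of_pos hr']
  have hA : MeasurableSet {a : ℝ | |a| ≤ c} := measurableSet_le measurable_norm measurable_const
  have key : ∀ᵐ a ∂nu, ENNReal.ofReal (h1 r a) * (ENNReal.ofReal (1 - Real.cos a)) ^ (-s) ≤
      ENNReal.ofReal (h1 r a) * ENNReal.ofReal (2 * (r : ℝ) ^ (2 * s)) +
      {a : ℝ | |a| ≤ c}.indicator
        (fun a => ENNReal.ofReal (2 * r) * ENNReal.ofReal (|a| ^ (-(2 * s)))) a := by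
    filter_upwards [H1_ae] with a ha
    by_cases h : |a| ≤ c
    · rw [Set.indicator_of_mem (by exact h)]
      refine le_trans ?_ le_add_self
      have hp := H1_pt (abs_pos.2 ha.2) le_rfl ha.1 hs0 hs
      calc ENNReal.ofReal (h1 r a) * (ENNReal.ofReal (1 - Real.cos a)) ^ (-s)
          ≤ ENNReal.ofReal r * ENNReal.ofReal (2 * |a| ^ (-(2 * s))) :=
            mul_le_mul' (ENNReal.ofReal_le_ofReal (h1_le r a)) hp
        _ = ENNReal.ofReal (2 * r) * ENNReal.ofReal (|a| ^ (-(2 * s))) := by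
            rw [← ENNReal.ofReal_mul hr'.le, ← ENNReal.ofReal_mul (by positivity)]
            congr 1
            ring
    · refine le_trans ?_ le_self_add
      have hp := H1_pt hc0 (not_le.1 h).le ha.1 hs0 hs
      rw [hcr] at hp
      gcongr
  refine (lintegral_mono_ae key).trans ?_
  rw [lintegral_add_left' (by
    exact ((h1_cont r).measurable.ennreal_ofReal.mul_const _).aemeasurable)]
  have e1 : ∫⁻ a, ENNReal.ofReal (h1 r a) * ENNReal.ofReal (2 * (r : ℝ) ^ (2 * s)) ∂nu ≤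
      ENNReal.ofReal (2 * (r : ℝ) ^ (2 * s)) := by
    rw [lintegral_mul_const _ (h1_cont r).measurable.ennreal_ofReal]
    calc (∫⁻ a, ENNReal.ofReal (h1 r a) ∂nu) * ENNReal.ofReal (2 * (r : ℝ) ^ (2 * s))
        ≤ 1 * ENNReal.ofReal (2 * (r : ℝ) ^ (2 * s)) := by
          gcongr
          exact int_h1 r
      _ = _ := one_mul _
  have e2 : ∫⁻ a, {a : ℝ | |a| ≤ c}.indicator
        (fun a => ENNReal.ofReal (2 * r) * ENNReal.ofReal (|a| ^ (-(2 * s)))) a ∂nu ≤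
      ENNReal.ofReal (2 * (r : ℝ) ^ (2 * s)) := by
    unfold nu
    rw [lintegral_smul_measure, lintegral_indicator hA, Measure.restrict_restrict hA]
    have e3 : ∫⁻ a in {a : ℝ | |a| ≤ c} ∩ Set.Ioc (-Real.pi) Real.pi,
        ENNReal.ofReal (2 * r) * ENNReal.ofReal (|a| ^ (-(2 * s))) ≤
        ENNReal.ofReal (2 * r) * ENNReal.ofReal (4 * c ^ (1 - 2 * s)) := by
      refine (lintegral_mono_set Set.inter_subset_left).trans ?_
      rw [lintegral_const_mul _ (by fun_prop)]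
      gcongr
      exact H1_full (by linarith) hc0
    rw [smul_eq_mul]
    refine (mul_le_mul_right e3 _).trans ?_
    have hp := Real.pi_gt_three
    rw [← ENNReal.ofReal_inv_of_pos (by linarith), ← ENNReal.ofReal_mul (by positivity),
      ← ENNReal.ofReal_mul (by positivity)]
    apply ENNReal.ofReal_le_ofReal
    have e4 : c ^ (1 - 2 * s) = (r : ℝ) ^ (2 * s) / r := by
      rw [sub_eq_add_neg, Real.rpow_add hc0, Real.rpow_one, hcr, hc]
      ring
    rw [e4]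
    have e5 : 0 < (r : ℝ) ^ (2 * s) := Real.rpow_pos_of_pos hr' _
    have e6 : (2 * Real.pi)⁻¹ * (2 * r * (4 * ((r : ℝ) ^ (2 * s) / r))) =
        (4 / Real.pi) * (r : ℝ) ^ (2 * s) := by
      field_simp
    rw [e6]
    gcongr
    rw [div_le_iff₀ (by linarith)]
    linarith
  refine (add_le_add e1 e2).trans ?_
  rw [hrr, ← ENNReal.ofReal_add (by positivity) (by positivity)]
  have e7 : (8 : ENNReal) = ENNReal.ofReal 8 := by norm_num
  rw [e7, ← ENNReal.ofReal_mul (by norm_num)]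
  apply ENNReal.ofReal_le_ofReal
  have e5 : 0 < (r : ℝ) ^ (2 * s) := Real.rpow_pos_of_pos hr' _
  linarith

end H88GK
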