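import Pool.Agent.H95.LE.WtDef

/-!
PROJECT LE, BLOCK G, K3 (by helper60). The fourfold convolution of an even function is maximal at `0`; weighted version.
`conv_sup`: `cv g (cv g (cv g g)) = cv f f` with `f = cv g g` even, and `2 f y f (x - y) <= f y ^2 + f (x - y) ^2`.
`K3w`: `w (x1 + .. + x4) <= c^3 w x1 .. w x4`.
-/

namespace H88GK

open H5DF H95LBD H95LE MeasureTheory

variable {d : ℕ}

lemma two_mul_le_sq (a b : ENNReal) : 2 * (a * b) ≤ a * a + b * b := by
  have key : ∀ a b : ENNReal, a ≤ b → 2 * (a * b) ≤ a * a + b * b := by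
    intro a b h
    obtain ⟨c, rfl⟩ := exists_add_of_le h
    have e : a * a + (a + c) * (a + c) = 2 * (a * (a + c)) + c * c := by ring
    rw [e]
    exact le_self_add
  rcases le_total a b with h | h
  · exact key a b h
  · have := key b a h
    rwa [mul_comm b a, add_comm (b * b)] at this

/-- The self-convolution of an even function is maximal at `0`. -/
theorem cv_self_sup {f : V d → ENNReal} (hf : ∀ x, f (-x) = f x) (x : V d) :
    cv f f x ≤ cv f f 0 := by
  have h0 : cv f f 0 = ∑' y, f y * f y := by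
    unfold cv
    refine tsum_congr fun y => ?_
    rw [zero_sub, hf]
  have h1 : ∑' y, f (x - y) * f (x - y) = ∑' y, f y * f y :=
    (Equiv.subLeft x).tsum_eq (fun y => f y * f y)
  have h2 : 2 * cv f f x ≤ 2 * cv f f 0 := by
    calc 2 * cv f f x = ∑' y, 2 * (f y * f (x - y)) := by
          unfold cv
          rw [ENNReal.tsum_mul_left]
      _ ≤ ∑' y, (f y * f y + f (x - y) * f (x - y)) :=
          ENNReal.tsum_le_tsum fun y => two_mul_le_sq _ _
      _ = cv f f 0 + cv f f 0 := by rw [ENNReal.tsum_add, h1, h0]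
      _ = 2 * cv f f 0 := (two_mul _).symm
  exact (ENNReal.mul_le_mul_iff_right (by norm_num) (by norm_num)).1 h2

theorem conv_sup {g : V d → ENNReal} (hg : ∀ x, g (-x) = g x) (x : V d) :
    cv g (cv g (cv g g)) x ≤ H95LE.sq g := by
  have hf : ∀ x, cv g g (-x) = cv g g x := cv_even hg hg
  have e : cv g (cv g (cv g g)) = cv (cv g g) (cv g g) := (cv_assoc g g (cv g g)).symm
  have h := cv_self_sup hf x
  unfold H95LE.sq
  rw [e]
  exact h

/-- One weighted convolution. -/
lemma w_cv {w : V d → ℕ} {c : ℕ} (hw : Wt w c) (f h : V d → ENNReal) (x : V d) :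
    (w x : ENNReal) * cv f h x ≤
      (c : ENNReal) * cv (fun y => (w y : ENNReal) * f y) (fun y => (w y : ENNReal) * h y) x := by
  unfold cv
  rw [← ENNReal.tsum_mul_left, ← ENNReal.tsum_mul_left]
  refine ENNReal.tsum_le_tsum fun y => ?_
  have h1 : (w x : ENNReal) ≤ (c : ENNReal) * (w y : ENNReal) * (w (x - y) : ENNReal) := by
    have h2 := hw.add y (x - y)
    rw [add_sub_cancel] at h2
    exact_mod_cast h2
  calc (w x : ENNReal) * (f y * h (x - y))
      ≤ ((c : ENNReal) * (w y : ENNReal) * (w (x - y) : ENNReal)) * (f y * h (x - y)) :=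
        mul_le_mul' h1 le_rfl
    _ = (c : ENNReal) * ((w y : ENNReal) * f y * ((w (x - y) : ENNReal) * h (x - y))) := by ring

lemma cv_mul_right (a : ENNReal) (f h : V d → ENNReal) (x : V d) :
    cv f (fun y => a * h y) x = a * cv f h x := by
  unfold cv
  rw [← ENNReal.tsum_mul_left]
  exact tsum_congr fun y => by ring

/-- The weighted fourfold convolution. -/
theorem w_cv4 {w : V d → ℕ} {c : ℕ} (hw : Wt w c) (f : V d → ENNReal) (x : V d) :
    (w x : ENNReal) * cv f (cv f (cv f f)) x ≤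
      (c : ENNReal) ^ 3 * cv (fun y => (w y : ENNReal) * f y) (cv (fun y => (w y : ENNReal) * f y)
        (cv (fun y => (w y : ENNReal) * f y) (fun y => (w y : ENNReal) * f y))) x := by
  set g : V d → ENNReal := fun y => (w y : ENNReal) * f y with hg
  have h2 : ∀ y, (w y : ENNReal) * cv f f y ≤ (c : ENNReal) * cv g g y := w_cv hw f f
  have h3 : ∀ y, (w y : ENNReal) * cv f (cv f f) y ≤ (c : ENNReal) ^ 2 * cv g (cv g g) y := by
    intro y
    calc (w y : ENNReal) * cv f (cv f f) y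
        ≤ (c : ENNReal) * cv g (fun y => (w y : ENNReal) * cv f f y) y := w_cv hw f (cv f f) y
      _ ≤ (c : ENNReal) * cv g (fun y => (c : ENNReal) * cv g g y) y :=
          mul_le_mul' le_rfl (cv_mono (fun _ => le_rfl) h2 y)
      _ = (c : ENNReal) ^ 2 * cv g (cv g g) y := by rw [cv_mul_right]; ring
  calc (w x : ENNReal) * cv f (cv f (cv f f)) x
      ≤ (c : ENNReal) * cv g (fun y => (w y : ENNReal) * cv f (cv f f) y) x :=
        w_cv hw f (cv f (cv f f)) x
    _ ≤ (c : ENNReal) * cv g (fun y => (c : ENNReal) ^ 2 * cv g (cv g g) y) x :=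
        mul_le_mul' le_rfl (cv_mono (fun _ => le_rfl) h3 x)
    _ = (c : ENNReal) ^ 3 * cv g (cv g (cv g g)) x := by rw [cv_mul_right]; ring

theorem K3w {w : V d → ℕ} {c : ℕ} (hw : Wt w c) (p : ℝ) (h0 : 0 ≤ p) (h1 : p ≤ 1) (x : V d) :
    (w x : ENNReal) * cv (tau d p) (cv (tau d p) (cv (tau d p) (tau d p))) x ≤
      (c : ENNReal) ^ 3 * H95LE.sq (gw w p) :=
  (w_cv4 hw (tau d p) x).trans
    (mul_le_mul' le_rfl (conv_sup (gw_neg hw p h0 h1) x))

theorem le_cv {f h : V d → ENNReal} (hf : 1 ≤ f 0) (x : V d) : h x ≤ cv f h x := by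
  unfold cv
  calc h x = 1 * h (x - 0) := by rw [one_mul, sub_zero]
    _ ≤ f 0 * h (x - 0) := mul_le_mul' hf le_rfl
    _ ≤ ∑' y, f y * h (x - y) := ENNReal.le_tsum (f := fun y => f y * h (x - y)) 0

/-- Lower convolution powers of `tau` with a weight. -/
theorem K3w_one {w : V d → ℕ} {c : ℕ} (hw : Wt w c) (p : ℝ) (h0 : 0 ≤ p) (h1 : p ≤ 1) (x : V d) :
    (w x : ENNReal) * tau d p x ≤ (c : ENNReal) ^ 3 * H95LE.sq (gw w p) := by
  have ht : (1 : ENNReal) ≤ tau d p 0 := by rw [tau_zero p h0 h1]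
  refine le_trans (mul_le_mul' le_rfl ?_) (K3w hw p h0 h1 x)
  exact (le_cv ht x).trans ((le_cv ht x).trans (le_cv ht x))

theorem K3w_two {w : V d → ℕ} {c : ℕ} (hw : Wt w c) (p : ℝ) (h0 : 0 ≤ p) (h1 : p ≤ 1) (x : V d) :
    (w x : ENNReal) * cv (tau d p) (tau d p) x ≤ (c : ENNReal) ^ 3 * H95LE.sq (gw w p) := by
  have ht : (1 : ENNReal) ≤ tau d p 0 := by rw [tau_zero p h0 h1]
  refine le_trans (mul_le_mul' le_rfl ?_) (K3w hw p h0 h1 x)
  exact (le_cv ht x).trans (le_cv ht x)

theorem K3w_three {w : V d → ℕ} {c : ℕ} (hw : Wt w c) (p : ℝ) (h0 : 0 ≤ p) (h1 : p ≤ 1)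
    (x : V d) :
    (w x : ENNReal) * cv (tau d p) (cv (tau d p) (tau d p)) x ≤
      (c : ENNReal) ^ 3 * H95LE.sq (gw w p) := by
  have ht : (1 : ENNReal) ≤ tau d p 0 := by rw [tau_zero p h0 h1]
  refine le_trans (mul_le_mul' le_rfl ?_) (K3w hw p h0 h1 x)
  exact le_cv ht x

end H88GK
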