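import Pool.Agent.H88.GK.Cmp
import Pool.Agent.H88.GK.IntF
import Pool.Agent.H88.GK.Tst
import Pool.Agent.H88.GK.K3
import Pool.Agent.H15.LE.Conv
import Pool.Agent.H15.LE.Brg

/-!
PROJECT LE, block G, GK-K4 (helper88). Sums of `tau^{*j}` over cubes.

PROOF. `box_bd`: `sum_{cu w s} f <= 3^d T f (3s) w <= 3^d int |f^| prod h1 (3s) <= 3^d A int uu^-m prod h1 (3s) <= 3^d A 8^d (3s)^(2m)`
(`le_T`, `T_ft`, `int_fej`). `K4`: `f = tau^{*j}` (real), `f^ = (tau^)^j`, `ft_tr_bd`.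
-/

namespace H88GK

open H5DF H95LBD H95LE H15LE MeasureTheory

variable {d : ℕ}

theorem box_bd (m : ℕ) (hm : 4 * m ≤ d) (hd : 0 < d) {f : V d → ℝ} (hf0 : ∀ x, 0 ≤ f x)
    (hf : Summable f) {A : ℝ} (hA : 0 ≤ A)
    (hb : ∀ᵐ k ∂(mu d), ‖ft f k‖ₑ ≤ ENNReal.ofReal A * (ENNReal.ofReal (uu k))⁻¹ ^ m) (w : V d)
    (s : ℕ) (hs : 1 ≤ s) : ∑ z ∈ cu w s, f z ≤ 24 ^ d * 9 ^ m * A * (s : ℝ) ^ (2 * m) := by
  have e1 := le_T hf0 s hs w
  have e2 := T_ft hf (3 * s) w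
  have e3 : ∫⁻ k, ‖ft f k‖ₑ * ∏ i, ENNReal.ofReal (h1 (3 * s) (k i)) ∂(mu d) ≤
      ENNReal.ofReal A * (8 ^ d * ((3 * s : ℕ) : ENNReal) ^ (2 * m)) := by
    calc ∫⁻ k, ‖ft f k‖ₑ * ∏ i, ENNReal.ofReal (h1 (3 * s) (k i)) ∂(mu d)
        ≤ ∫⁻ k, ENNReal.ofReal A * ((ENNReal.ofReal (uu k))⁻¹ ^ m *
            ∏ i, ENNReal.ofReal (h1 (3 * s) (k i))) ∂(mu d) := by
          refine lintegral_mono_ae ?_
          filter_upwards [hb] with k hk
          rw [← mul_assoc]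
          exact mul_le_mul' hk le_rfl
      _ = ENNReal.ofReal A * ∫⁻ k, (ENNReal.ofReal (uu k))⁻¹ ^ m *
            ∏ i, ENNReal.ofReal (h1 (3 * s) (k i)) ∂(mu d) :=
          lintegral_const_mul' _ _ ENNReal.ofReal_ne_top
      _ ≤ _ := mul_le_mul' le_rfl (int_fej m d (3 * s) hm hd (by omega))
  have e4 : ENNReal.ofReal A * (8 ^ d * ((3 * s : ℕ) : ENNReal) ^ (2 * m)) =
      ENNReal.ofReal (A * (8 ^ d * (3 * (s : ℝ)) ^ (2 * m))) := by
    rw [ENNReal.ofReal_mul hA, ENNReal.ofReal_mul (by positivity), ENNReal.ofReal_pow (by norm_num),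
      ENNReal.ofReal_pow (by positivity)]
    congr 2
    · norm_num
    · congr 1
      rw [← ENNReal.ofReal_natCast]
      push_cast
      rfl
  have e5 : |T f (3 * s) w| ≤ A * (8 ^ d * (3 * (s : ℝ)) ^ (2 * m)) := by
    rw [← ENNReal.ofReal_le_ofReal_iff (by positivity)]
    exact e2.trans (e3.trans e4.le)
  calc ∑ z ∈ cu w s, f z ≤ 3 ^ d * T f (3 * s) w := e1
    _ ≤ 3 ^ d * (A * (8 ^ d * (3 * (s : ℝ)) ^ (2 * m))) := by
        gcongr
        exact (le_abs_self _).trans e5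
    _ = 24 ^ d * 9 ^ m * A * (s : ℝ) ^ (2 * m) := by
        rw [mul_pow, pow_mul (3 : ℝ) 2 m, show (24 : ℝ) = 3 * 8 by norm_num, mul_pow]
        norm_num
        ring

/-- Convolution powers: `cvp t n` is the `(n+1)`-fold convolution of `t`. -/
noncomputable def cvp (t : V d → ENNReal) : ℕ → V d → ENNReal
  | 0 => t
  | n + 1 => cv t (cvp t n)

/-- Convolution powers of real functions. -/
noncomputable def crp (t : V d → ℝ) : ℕ → V d → ℝ
  | 0 => t
  | n + 1 => cr t (crp t n)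

lemma crp_nonneg {t : V d → ℝ} (h : ∀ x, 0 ≤ t x) (n : ℕ) (x : V d) : 0 ≤ crp t n x := by
  induction n generalizing x with
  | zero => exact h x
  | succ n ih => exact cr_nonneg h ih x

lemma crp_summable {t : V d → ℝ} (h : Summable t) (n : ℕ) : Summable (crp t n) := by
  induction n with
  | zero => exact h
  | succ n ih => exact summable_cr h ih

lemma cvp_ofReal {t : V d → ℝ} (h0 : ∀ x, 0 ≤ t x) (h : Summable t) (n : ℕ) :
    cvp (fun x => ENNReal.ofReal (t x)) n = fun x => ENNReal.ofReal (crp t n x) := by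
  induction n with
  | zero => rfl
  | succ n ih =>
    change cv _ (cvp _ n) = _
    rw [ih]
    exact cv_ofReal h0 (crp_nonneg h0 n) (summable_cr_term h (crp_summable h n))

lemma ft_crp {t : V d → ℝ} (h : Summable t) (n : ℕ) (k : Fin d → ℝ) :
    ft (crp t n) k = ft t k ^ (n + 1) := by
  induction n with
  | zero => simp [crp]
  | succ n ih =>
    change ft (cr t (crp t n)) k = _
    rw [ft_cr h (crp_summable h n), ih, pow_succ' (ft t k) (n + 1)]

/-- K4: the sum of `tau^{*(j+1)}` over a cube of half side `s` is at most `C s^(2(j+1))`. -/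
theorem K4 {p : ℝ} {X : V d → ℝ} (hI : Inp d p X) (j : ℕ) (hj : 4 * (j + 1) ≤ d) (w : V d) (s : ℕ)
    (hs : 1 ≤ s) :
    ∑ z ∈ cu w s, cvp (tau d p) j z ≤
      ENNReal.ofReal (24 ^ d * 9 ^ (j + 1) * 5 ^ (j + 1) * (s : ℝ) ^ (2 * (j + 1))) := by
  have hst : Summable (tr d p) := (ws_tr hI.fin).sum
  have h0 : ∀ x, 0 ≤ tr d p x := fun x => tr_nonneg p x
  have e : tau d p = fun x => ENNReal.ofReal (tr d p x) := funext fun x => tau_eq hI.fin x
  rw [e, cvp_ofReal h0 hst j]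
  change ∑ z ∈ cu w s, ENNReal.ofReal (crp (tr d p) j z) ≤ _
  rw [← ENNReal.ofReal_sum_of_nonneg fun z _ => crp_nonneg h0 j z]
  refine ENNReal.ofReal_le_ofReal (box_bd (j + 1) hj hI.d0 (crp_nonneg h0 j) (crp_summable hst j)
    (by positivity) ?_ w s hs)
  filter_upwards [ft_tr_bd hI] with k hk
  rw [ft_crp hst, enorm_pow]
  calc ‖ft (tr d p) k‖ₑ ^ (j + 1) ≤ (5 * (ENNReal.ofReal (uu k))⁻¹) ^ (j + 1) := by gcongr
    _ = ENNReal.ofReal (5 ^ (j + 1)) * (ENNReal.ofReal (uu k))⁻¹ ^ (j + 1) := by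
        rw [mul_pow, ENNReal.ofReal_pow (by norm_num)]
        norm_num

end H88GK
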